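import Pool.Agent.H.MP_f8852a_lc.Defs

/-!
Stage approximations of partial functions recursive in a total oracle, and the closure of the
relatively c.e. sets under primitive recursive tests and existential quantification.
-/

namespace Pool.Agent.H.MP_f8852a_lc

open Encodable

variable {g : ℕ → ℕ}

/-- total function recursive in `g` -/
def Tot (g : ℕ → ℕ) (f : ℕ → ℕ) : Prop :=
  Nat.RecursiveIn {fun n => Part.some (g n)} (fun n => Part.some (f n))

theorem Tot.of_eq {f f' : ℕ → ℕ} (hf : Tot g f) (h : ∀ n, f n = f' n) : Tot g f' :=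
  (funext h : f = f') ▸ hf

theorem Tot.prim {f : ℕ → ℕ} (hf : Nat.Primrec f) : Tot g f := hf.recursiveIn

theorem Tot.prim' {f : ℕ → ℕ} (hf : Primrec f) : Tot g f := Tot.prim (Primrec.nat_iff.1 hf)

theorem Tot.comp {f h : ℕ → ℕ} (hf : Tot g f) (hh : Tot g h) : Tot g (fun n => f (h n)) := by
  have := Nat.RecursiveIn.comp hf hh
  refine Nat.RecursiveIn.of_eq this fun n => ?_
  simp

theorem Tot.pair {f h : ℕ → ℕ} (hf : Tot g f) (hh : Tot g h) :
    Tot g (fun n => Nat.pair (f n) (h n)) := by
  have := Nat.RecursiveIn.pair hf hh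
  refine Nat.RecursiveIn.of_eq this fun n => ?_
  simp [Seq.seq]

theorem Tot.prec {f h : ℕ → ℕ} (hf : Tot g f) (hh : Tot g h) :
    Tot g (fun p => (Nat.unpair p).2.rec (f (Nat.unpair p).1)
      (fun y IH => h (Nat.pair (Nat.unpair p).1 (Nat.pair y IH)))) := by
  have := Nat.RecursiveIn.prec hf hh
  refine Nat.RecursiveIn.of_eq this fun p => ?_
  simp only
  induction (Nat.unpair p).2 with
  | zero => rfl
  | succ n ih => simp only [ih]; simp

theorem Tot.left : Tot g (fun n => (Nat.unpair n).1) := Tot.prim Nat.Primrec.left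
theorem Tot.right : Tot g (fun n => (Nat.unpair n).2) := Tot.prim Nat.Primrec.right

theorem Tot.app₂ {P : ℕ → ℕ → ℕ} (hP : Primrec₂ P) {u v : ℕ → ℕ} (hu : Tot g u) (hv : Tot g v) :
    Tot g (fun n => P (u n) (v n)) := by
  have h1 : Tot g (fun n => P (Nat.unpair n).1 (Nat.unpair n).2) :=
    Tot.prim' (hP.comp (Primrec.fst.comp Primrec.unpair) (Primrec.snd.comp Primrec.unpair))
  refine (h1.comp (hu.pair hv)).of_eq fun n => ?_
  simp

/-- `if a = 0 then 0 else b` -/
def guard0 (a b : ℕ) : ℕ := if a = 0 then 0 else b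

theorem primrec_guard0 : Primrec₂ guard0 :=
  Primrec.ite (Primrec.eq.comp Primrec.fst (Primrec.const 0)) (Primrec.const 0) Primrec.snd

theorem Tot.guard {u v : ℕ → ℕ} (hu : Tot g u) (hv : Tot g v) :
    Tot g (fun n => guard0 (u n) (v n)) := Tot.app₂ primrec_guard0 hu hv

theorem Tot.succ {u : ℕ → ℕ} (hu : Tot g u) : Tot g (fun n => u n + 1) :=
  Tot.comp (f := fun n => n + 1) (Tot.prim' Primrec.succ) hu

theorem Tot.pred {u : ℕ → ℕ} (hu : Tot g u) : Tot g (fun n => u n - 1) :=
  Tot.comp (f := fun n => n - 1) (Tot.prim' Primrec.pred) hu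

/-- A stage approximation of the partial function `f` by a total one. -/
structure Stage (g : ℕ → ℕ) (f : ℕ →. ℕ) (r : ℕ → ℕ) : Prop where
  tot : Tot g r
  sound : ∀ x s y, r (Nat.pair x s) = y + 1 → y ∈ f x
  ev : ∀ x y, y ∈ f x → ∃ s₀, ∀ s, s₀ ≤ s → r (Nat.pair x s) = y + 1

theorem exists_stage {f : ℕ →. ℕ} (hf : Nat.RecursiveIn {fun n => Part.some (g n)} f) :
    ∃ r, Stage g f r := by
  induction hf with
  | zero =>
    refine ⟨fun _ => 1, Tot.prim' (Primrec.const 1), ?_, ?_⟩
    · intro x s y h
      have : y = 0 := by omega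
      subst this; exact Part.mem_some _
    · intro x y h
      have : y = 0 := Part.mem_some_iff.1 h
      subst this; exact ⟨0, fun _ _ => rfl⟩
  | succ =>
    refine ⟨fun n => (Nat.unpair n).1 + 1 + 1, Tot.left.succ.succ, ?_, ?_⟩
    · intro x s y h
      simp only [Nat.unpair_pair] at h
      have : y = x + 1 := by omega
      subst this; exact Part.mem_some _
    · intro x y h
      have : y = x + 1 := Part.mem_some_iff.1 h
      subst this; exact ⟨0, fun _ _ => by simp⟩
  | left =>
    refine ⟨fun n => (Nat.unpair (Nat.unpair n).1).1 + 1, (Tot.left.comp Tot.left).succ, ?_, ?_⟩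
    · intro x s y h
      simp only [Nat.unpair_pair] at h
      have : y = (Nat.unpair x).1 := by omega
      subst this; exact Part.mem_some _
    · intro x y h
      have : y = (Nat.unpair x).1 := Part.mem_some_iff.1 h
      subst this; exact ⟨0, fun _ _ => by simp⟩
  | right =>
    refine ⟨fun n => (Nat.unpair (Nat.unpair n).1).2 + 1, (Tot.right.comp Tot.left).succ, ?_, ?_⟩
    · intro x s y h
      simp only [Nat.unpair_pair] at h
      have : y = (Nat.unpair x).2 := by omega
      subst this; exact Part.mem_some _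
    · intro x y h
      have : y = (Nat.unpair x).2 := Part.mem_some_iff.1 h
      subst this; exact ⟨0, fun _ _ => by simp⟩
  | oracle g' hg' =>
    obtain rfl := Set.mem_singleton_iff.1 hg'
    have hg : Tot g g := Nat.RecursiveIn.oracle _ rfl
    refine ⟨fun n => g (Nat.unpair n).1 + 1, (hg.comp Tot.left).succ, ?_, ?_⟩
    · intro x s y h
      simp only [Nat.unpair_pair] at h
      have : y = g x := by omega
      subst this; exact Part.mem_some _
    · intro x y h
      have : y = g x := Part.mem_some_iff.1 h
      subst this; exact ⟨0, fun _ _ => by simp⟩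
  | @pair f h _ _ ihf ihh =>
    obtain ⟨rf, hrf⟩ := ihf
    obtain ⟨rh, hrh⟩ := ihh
    refine ⟨fun n => guard0 (rf n) (guard0 (rh n) (Nat.pair (rf n - 1) (rh n - 1) + 1)),
      hrf.tot.guard (hrh.tot.guard (hrf.tot.pred.pair hrh.tot.pred).succ), ?_, ?_⟩
    · intro x s y hy
      simp only [guard0] at hy
      split_ifs at hy with h1 h2
      have ha := hrf.sound x s (rf (Nat.pair x s) - 1) (by omega)
      have hb := hrh.sound x s (rh (Nat.pair x s) - 1) (by omega)
      have : y = Nat.pair (rf (Nat.pair x s) - 1) (rh (Nat.pair x s) - 1) := by omega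
      subst this
      simp only [Seq.seq, Part.mem_bind_iff, Part.map_eq_map, Part.mem_map_iff]
      exact ⟨_, ⟨_, ha, rfl⟩, _, hb, rfl⟩
    · intro x y hy
      simp only [Seq.seq, Part.mem_bind_iff, Part.map_eq_map, Part.mem_map_iff] at hy
      obtain ⟨_, ⟨a, ha, rfl⟩, b, hb, rfl⟩ := hy
      obtain ⟨s1, h1⟩ := hrf.ev x a ha
      obtain ⟨s2, h2⟩ := hrh.ev x b hb
      refine ⟨max s1 s2, fun s hs => ?_⟩
      simp only [guard0]
      rw [h1 s (le_trans (le_max_left _ _) hs), h2 s (le_trans (le_max_right _ _) hs)]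
      simp
  | @comp f h _ _ ihf ihh =>
    obtain ⟨rf, hrf⟩ := ihf
    obtain ⟨rh, hrh⟩ := ihh
    refine ⟨fun n => guard0 (rh n) (rf (Nat.pair (rh n - 1) (Nat.unpair n).2)),
      hrh.tot.guard (hrf.tot.comp (hrh.tot.pred.pair Tot.right)), ?_, ?_⟩
    · intro x s y hy
      simp only [guard0, Nat.unpair_pair] at hy
      split_ifs at hy with h1
      have hb := hrh.sound x s (rh (Nat.pair x s) - 1) (by omega)
      have ha := hrf.sound _ _ _ hy
      exact Part.mem_bind_iff.2 ⟨_, hb, ha⟩
    · intro x y hy
      obtain ⟨b, hb, ha⟩ := Part.mem_bind_iff.1 hy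
      obtain ⟨s2, h2⟩ := hrh.ev x b hb
      obtain ⟨s1, h1⟩ := hrf.ev b y ha
      refine ⟨max s1 s2, fun s hs => ?_⟩
      simp only [guard0, Nat.unpair_pair]
      rw [h2 s (le_trans (le_max_right _ _) hs)]
      simp only [Nat.add_sub_cancel]
      rw [h1 s (le_trans (le_max_left _ _) hs)]
      simp
  | @prec f h _ _ ihf ihh =>
    obtain ⟨rf, hrf⟩ := ihf
    obtain ⟨rh, hrh⟩ := ihh
    -- `(a, s), n ↦ ...`
    let R : ℕ → ℕ → ℕ → ℕ := fun a s n =>
      n.rec (rf (Nat.pair a s)) (fun y IH =>
        guard0 IH (rh (Nat.pair (Nat.pair a (Nat.pair y (IH - 1))) s)))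
    have hR : Tot g (fun p => R (Nat.unpair (Nat.unpair p).1).1 (Nat.unpair (Nat.unpair p).1).2
        (Nat.unpair p).2) := by
      have hstep : Tot g (fun q => guard0 (Nat.unpair (Nat.unpair q).2).2
          (rh (Nat.pair (Nat.pair (Nat.unpair (Nat.unpair q).1).1
            (Nat.pair (Nat.unpair (Nat.unpair q).2).1 ((Nat.unpair (Nat.unpair q).2).2 - 1)))
            (Nat.unpair (Nat.unpair q).1).2))) := by
        refine Tot.guard (Tot.right.comp Tot.right) (hrh.tot.comp (Tot.pair (Tot.pair
          (Tot.left.comp Tot.left) (Tot.pair (Tot.left.comp Tot.right)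
          (Tot.right.comp Tot.right).pred)) (Tot.right.comp Tot.left)))
      refine (Tot.prec hrf.tot hstep).of_eq fun p => ?_
      simp only [R]
      congr 1
      · simp
      · funext y IH; simp
    refine ⟨fun n => R (Nat.unpair (Nat.unpair n).1).1 (Nat.unpair n).2
      (Nat.unpair (Nat.unpair n).1).2, ?_, ?_, ?_⟩
    · refine (hR.comp (Tot.pair (Tot.pair (Tot.left.comp Tot.left) Tot.right)
        (Tot.right.comp Tot.left))).of_eq fun n => ?_
      simp
    · intro x s y hy
      simp only [Nat.unpair_pair] at hy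
      simp only
      generalize (Nat.unpair x).1 = a at *
      generalize (Nat.unpair x).2 = n at *
      induction n generalizing y with
      | zero => exact hrf.sound a s y hy
      | succ n ih =>
        have hy' : guard0 (R a s n) (rh (Nat.pair (Nat.pair a (Nat.pair n (R a s n - 1))) s))
          = y + 1 := hy
        rcases Nat.eq_zero_or_pos (R a s n) with h1 | h1
        · rw [h1] at hy'
          simp [guard0] at hy'
        · rw [guard0, if_neg h1.ne'] at hy'
          exact Part.mem_bind_iff.2 ⟨_, ih (R a s n - 1) (by omega), hrh.sound _ _ _ hy'⟩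
    · intro x y hy
      simp only [Nat.unpair_pair]
      simp only at hy
      generalize (Nat.unpair x).1 = a at *
      generalize (Nat.unpair x).2 = n at *
      induction n generalizing y with
      | zero => exact hrf.ev a y hy
      | succ n ih =>
        obtain ⟨b, hb, ha⟩ := Part.mem_bind_iff.1 hy
        obtain ⟨s1, h1⟩ := ih b hb
        obtain ⟨s2, h2⟩ := hrh.ev _ _ ha
        refine ⟨max s1 s2, fun s hs => ?_⟩
        change guard0 (R a s n) (rh (Nat.pair (Nat.pair a (Nat.pair n (R a s n - 1))) s)) = y + 1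
        rw [h1 s (le_trans (le_max_left _ _) hs)]
        simp only [guard0, Nat.add_sub_cancel]
        rw [h2 s (le_trans (le_max_right _ _) hs)]
        simp
  | @rfind f _ ihf =>
    obtain ⟨rf, hrf⟩ := ihf
    -- state: 0 = searching, 1 = blocked, k + 2 = found k
    let step : ℕ → ℕ → ℕ → ℕ := fun st k v =>
      if st = 0 then (if v = 0 then 1 else if v = 1 then k + 2 else 0) else st
    let R : ℕ → ℕ → ℕ → ℕ := fun a s n =>
      n.rec 0 (fun k IH => step IH k (rf (Nat.pair (Nat.pair a k) s)))
    have hR : Tot g (fun p => R (Nat.unpair (Nat.unpair p).1).1 (Nat.unpair (Nat.unpair p).1).2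
        (Nat.unpair p).2) := by
      have hp : Primrec (fun t : ℕ => step (Nat.unpair t).1 (Nat.unpair (Nat.unpair t).2).1
          (Nat.unpair (Nat.unpair t).2).2) := by
        have e1 : Primrec (fun t : ℕ => (Nat.unpair t).1) := Primrec.fst.comp Primrec.unpair
        have e2 : Primrec (fun t : ℕ => (Nat.unpair t).2) := Primrec.snd.comp Primrec.unpair
        exact Primrec.ite (Primrec.eq.comp e1 (Primrec.const 0))
          (Primrec.ite (Primrec.eq.comp (e2.comp e2) (Primrec.const 0)) (Primrec.const 1)
            (Primrec.ite (Primrec.eq.comp (e2.comp e2) (Primrec.const 1))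
              (Primrec.succ.comp (Primrec.succ.comp (e1.comp e2))) (Primrec.const 0))) e1
      have hstep : Tot g (fun q => step (Nat.unpair (Nat.unpair q).2).2
          (Nat.unpair (Nat.unpair q).2).1
          (rf (Nat.pair (Nat.pair (Nat.unpair (Nat.unpair q).1).1
            (Nat.unpair (Nat.unpair q).2).1) (Nat.unpair (Nat.unpair q).1).2))) := by
        refine ((Tot.prim' hp).comp (Tot.pair (Tot.right.comp Tot.right)
          (Tot.pair (Tot.left.comp Tot.right) (hrf.tot.comp (Tot.pair (Tot.pair
          (Tot.left.comp Tot.left) (Tot.left.comp Tot.right)) (Tot.right.comp Tot.left)))))).of_eq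
          fun n => ?_
        simp only [Nat.unpair_pair]
      refine (Tot.prec (Tot.prim' (Primrec.const 0)) hstep).of_eq fun p => ?_
      simp only [R]
      congr 1
      funext y IH; simp
    refine ⟨fun n => R (Nat.unpair n).1 (Nat.unpair n).2 (Nat.unpair n).2 - 1, ?_, ?_, ?_⟩
    · refine Tot.pred ((hR.comp (Tot.pair (Tot.pair Tot.left Tot.right) Tot.right)).of_eq
        fun n => ?_)
      simp
    · intro x s y hy
      simp only [Nat.unpair_pair] at hy
      have key : ∀ n, (R x s n = 0 → ∀ k < n, ∃ v, rf (Nat.pair (Nat.pair x k) s) = v + 1 + 1) ∧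
          (∀ m, R x s n = m + 2 → rf (Nat.pair (Nat.pair x m) s) = 1 ∧
            ∀ k < m, ∃ v, rf (Nat.pair (Nat.pair x k) s) = v + 1 + 1) := by
        intro n
        induction n with
        | zero => exact ⟨fun _ k hk => absurd hk (Nat.not_lt_zero k), fun m hm => by
            have : (0 : ℕ) = m + 2 := hm
            omega⟩
        | succ n ih =>
          have hs : R x s (n + 1) = step (R x s n) n (rf (Nat.pair (Nat.pair x n) s)) := rfl
          rw [hs]
          rcases Nat.eq_zero_or_pos (R x s n) with h1 | h1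
          · have h1' := ih.1 h1
            rw [h1]
            by_cases h2 : rf (Nat.pair (Nat.pair x n) s) = 0
            · have e : step 0 n (rf (Nat.pair (Nat.pair x n) s)) = 1 := by simp [step, h2]
              rw [e]
              exact ⟨fun h => by omega, fun m hm => by omega⟩
            · by_cases h3 : rf (Nat.pair (Nat.pair x n) s) = 1
              · have e : step 0 n (rf (Nat.pair (Nat.pair x n) s)) = n + 2 := by
                  simp [step, h3]
                rw [e]
                refine ⟨fun h => by omega, fun m hm => ?_⟩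
                have : m = n := by omega
                subst this
                exact ⟨h3, h1'⟩
              · have e : step 0 n (rf (Nat.pair (Nat.pair x n) s)) = 0 := by
                  simp [step, h2, h3]
                rw [e]
                refine ⟨fun _ k hk => ?_, fun m hm => by omega⟩
                rcases Nat.lt_succ_iff_lt_or_eq.1 hk with hk | rfl
                · exact h1' k hk
                · exact ⟨rf (Nat.pair (Nat.pair x k) s) - 2, by omega⟩
          · have e : step (R x s n) n (rf (Nat.pair (Nat.pair x n) s)) = R x s n := if_neg h1.ne'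
            rw [e]
            exact ⟨fun h => absurd h h1.ne', ih.2⟩
      obtain ⟨h1, h2⟩ := (key s).2 y (by omega)
      rw [Nat.mem_rfind]
      constructor
      · refine (Part.mem_map_iff _).2 ⟨0, hrf.sound _ _ 0 h1, by simp⟩
      · intro k hk
        obtain ⟨v, hv⟩ := h2 k hk
        exact (Part.mem_map_iff _).2 ⟨v + 1, hrf.sound _ _ (v + 1) hv, by simp⟩
    · intro x y hy
      rw [Nat.mem_rfind] at hy
      obtain ⟨hy1, hy2⟩ := hy
      have hy1' : (0 : ℕ) ∈ f (Nat.pair x y) := by
        obtain ⟨v, hv, hv'⟩ := (Part.mem_map_iff _).1 hy1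
        simp at hv'
        rwa [hv'] at hv
      have hy2' : ∀ k < y, ∃ v, v ≠ 0 ∧ v ∈ f (Nat.pair x k) := by
        intro k hk
        obtain ⟨v, hv, hv'⟩ := (Part.mem_map_iff _).1 (hy2 hk)
        simp at hv'
        exact ⟨v, hv', hv⟩
      choose! v hv0 hv using hy2'
      obtain ⟨s1, hs1⟩ := hrf.ev _ _ hy1'
      have : ∀ k < y, ∃ s₀, ∀ s, s₀ ≤ s → rf (Nat.pair (Nat.pair x k) s) = v k + 1 :=
        fun k hk => hrf.ev _ _ (hv k hk)
      choose! t ht using this
      refine ⟨max (y + 1) (max s1 ((Finset.range y).sup t)), fun s hs => ?_⟩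
      have hsy : y + 1 ≤ s := le_trans (le_max_left _ _) hs
      have hs1' : s1 ≤ s := le_trans (le_trans (le_max_left _ _) (le_max_right _ _)) hs
      have hst : ∀ k < y, t k ≤ s := fun k hk =>
        le_trans (le_trans (le_trans (Finset.le_sup (f := t) (Finset.mem_range.2 hk))
          (le_max_right _ _)) (le_max_right _ _)) hs
      simp only [Nat.unpair_pair]
      have a1 : ∀ n ≤ y, R x s n = 0 := by
        intro n hn
        induction n with
        | zero => rfl
        | succ n ih =>
          have hs : R x s (n + 1) = step (R x s n) n (rf (Nat.pair (Nat.pair x n) s)) := rfl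
          rw [hs, ih (by omega), ht n (by omega) s (hst n (by omega))]
          have := hv0 n (by omega)
          simp only [step]
          simp [this]
      have a2 : R x s (y + 1) = y + 2 := by
        have hs : R x s (y + 1) = step (R x s y) y (rf (Nat.pair (Nat.pair x y) s)) := rfl
        rw [hs, a1 y le_rfl, hs1 s hs1']
        simp [step]
      have a3 : ∀ n, R x s (y + 1 + n) = y + 2 := by
        intro n
        induction n with
        | zero => exact a2
        | succ n ih =>
          have hs : R x s (y + 1 + n + 1) = step (R x s (y + 1 + n)) (y + 1 + n)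
            (rf (Nat.pair (Nat.pair x (y + 1 + n)) s)) := rfl
          rw [← Nat.add_assoc, hs, ih]
          simp [step]
      obtain ⟨n, rfl⟩ := Nat.exists_eq_add_of_le hsy
      rw [a3]
      omega

open Classical in
/-- Relatively c.e. sets are closed under primitive recursive preimages, conjunction with a
primitive recursive test, and existential quantification. -/
theorem CE.exists_of {O : Set ℕ} {α β γ : Type} [Primcodable α] [Primcodable β] [Primcodable γ]
    {A : Set β} (hA : CE O A) {T : α → γ → Prop} (hT : PrimrecRel T) {L : α → γ → β}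
    (hL : Primrec₂ L) : CE O {a | ∃ c, T a c ∧ L a c ∈ A} := by
  obtain ⟨f, hf, hfA⟩ := hA
  obtain ⟨r, hr⟩ := exists_stage (g := fun n => if n ∈ O then 1 else 0) hf
  -- the test
  let W : α × γ → ℕ := fun x => if T x.1 x.2 then encode (L x.1 x.2) + 1 else 0
  have hW : Primrec W := by
    refine Primrec.ite ?_ (Primrec.succ.comp (Primrec.encode.comp hL)) (Primrec.const 0)
    exact hT.comp Primrec.fst Primrec.snd
  let w : ℕ → ℕ := fun p => ((decode p : Option (α × γ)).map W).getD 0
  have hw : Primrec w :=
    Primrec.option_getD.comp (Primrec.option_map Primrec.decode (hW.comp Primrec.snd).to₂)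
      (Primrec.const 0)
  have hw1 : ∀ (n : ℕ) (a : α) (c : γ), decode n = some a →
      w (Nat.pair n (encode c)) = W (a, c) := by
    intro n a c hn
    simp [w, hn]
  have hw2 : ∀ (n : ℕ) (a : α) (c' : ℕ), decode n = some a →
      w (Nat.pair n c') ≠ 0 → ∃ c : γ, w (Nat.pair n c') = W (a, c) := by
    intro n a c' hn h
    cases hc : (decode c' : Option γ) with
    | none => simp [w, hn, hc] at h
    | some c => exact ⟨c, by simp [w, hn, hc]⟩
  have hw3 : ∀ (n c' : ℕ) (a : α), decode n = some a →
      w (Nat.pair n c') = w (Nat.pair (encode a) c') := by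
    intro n c' a hn
    simp [w, hn]
  have hw4 : ∀ (n c' : ℕ), (decode n : Option α) = none → w (Nat.pair n c') = 0 := by
    intro n c' hn
    simp [w, hn]
  -- total search function
  let P : ℕ → ℕ → ℕ := fun u v => if u = 0 then 1 else if v = 0 then 1 else 0
  have hP : Primrec₂ P := Primrec.ite (Primrec.eq.comp Primrec.fst (Primrec.const 0))
    (Primrec.const 1) (Primrec.ite (Primrec.eq.comp Primrec.snd (Primrec.const 0))
      (Primrec.const 1) (Primrec.const 0))
  let wq : ℕ → ℕ := fun q => w (Nat.pair (Nat.unpair q).1 (Nat.unpair (Nat.unpair q).2).1)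
  have hwq : Tot (fun n => if n ∈ O then 1 else 0) wq :=
    (Tot.prim' hw).comp (Tot.pair Tot.left (Tot.left.comp Tot.right))
  let t : ℕ → ℕ := fun q => P (wq q)
    (r (Nat.pair (wq q - 1) (Nat.unpair (Nat.unpair q).2).2))
  have ht : Tot (fun n => if n ∈ O then 1 else 0) t :=
    Tot.app₂ hP hwq (hr.tot.comp (hwq.pred.pair (Tot.right.comp Tot.right)))
  have htq : ∀ n c' s, t (Nat.pair n (Nat.pair c' s)) = 0 ↔
      w (Nat.pair n c') ≠ 0 ∧ r (Nat.pair (w (Nat.pair n c') - 1) s) ≠ 0 := by
    intro n c' s
    simp only [t, wq, Nat.unpair_pair, P]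
    split_ifs with h1 h2
    · simp [h1]
    · simp [h2]
    · simp [h1, h2]
  let G : ℕ →. ℕ := fun a => Nat.rfind fun n => (fun m => m = 0) <$>
    (Part.some (t (Nat.pair a n)) : Part ℕ)
  have hG : Nat.RecursiveIn {chi O} G := Nat.RecursiveIn.rfind ht
  have hGdom : ∀ a, (G a).Dom ↔ ∃ n, t (Nat.pair a n) = 0 := by
    intro a
    simp only [G, Nat.rfind_dom]
    constructor
    · rintro ⟨n, hn, -⟩
      refine ⟨n, ?_⟩
      simpa using hn
    · rintro ⟨n, hn⟩
      refine ⟨n, by simpa using hn, fun _ => by simp⟩
  refine ⟨fun a => G (encode a), ?_, ?_⟩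
  · refine Nat.RecursiveIn.of_eq hG fun n => ?_
    cases hn : (decode n : Option α) with
    | none =>
      have : ¬ (G n).Dom := by
        rw [hGdom]
        rintro ⟨k, hk⟩
        have := (htq n (Nat.unpair k).1 (Nat.unpair k).2).1 (by simpa using hk)
        exact this.1 (hw4 _ _ hn)
      rw [Part.eq_none_iff'.2 this]
      simp
    | some a =>
      have e' : ∀ k, t (Nat.pair n k) = t (Nat.pair (encode a) k) := by
        intro k
        simp only [t, wq, Nat.unpair_pair]
        rw [hw3 n _ a hn]
      have e : G n = G (encode a) := by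
        simp only [G, e']
      rw [e]
      simp [Part.map_id']
  · intro a
    rw [hGdom]
    have key : ∀ b : β, b ∈ A ↔ ∃ s, r (Nat.pair (encode b) s) ≠ 0 := by
      intro b
      rw [hfA b]
      constructor
      · intro hd
        have : encode ((f b).get hd) ∈
            (fun n => Part.bind (decode (α := β) n) fun a => (f a).map encode) (encode b) := by
          simp only [encodek, Part.coe_some, Part.bind_some]
          exact Part.mem_map _ (Part.get_mem hd)
        obtain ⟨s, hs⟩ := hr.ev _ _ this
        exact ⟨s, by rw [hs s le_rfl]; omega⟩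
      · rintro ⟨s, hs⟩
        have := hr.sound (encode b) s (r (Nat.pair (encode b) s) - 1) (by omega)
        simp only [encodek, Part.coe_some, Part.bind_some] at this
        obtain ⟨y, hy, -⟩ := (Part.mem_map_iff _).1 this
        exact Part.dom_iff_mem.2 ⟨y, hy⟩
    constructor
    · rintro ⟨c, hc, hca⟩
      obtain ⟨s, hs⟩ := (key _).1 hca
      refine ⟨Nat.pair (encode c) s, (htq _ _ _).2 ?_⟩
      rw [hw1 (encode a) a c (encodek a)]
      simp only [W, if_pos hc]
      exact ⟨by omega, by simpa using hs⟩
    · rintro ⟨k, hk⟩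
      obtain ⟨h1, h2⟩ := (htq (encode a) (Nat.unpair k).1 (Nat.unpair k).2).1 (by simpa using hk)
      obtain ⟨c, hc⟩ := hw2 _ a _ (encodek a) h1
      rw [hc] at h1 h2
      by_cases hT' : T a c
      · simp only [W, if_pos hT'] at h2
        exact ⟨c, hT', (key _).2 ⟨_, by simpa using h2⟩⟩
      · simp [W, hT'] at h1

end Pool.Agent.H.MP_f8852a_lc
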