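import Pool.Agent.H.MP_f8852a_lc.CE

/-!
Certificates for the complement of a basic open set `B` in `K` carries a continuous `q`-th root
of `F : K → Circle`.
-/

namespace Pool.Agent.H.MP_f8852a_lc

open Set Filter Topology Real

/-! ### Decidable tests -/

/-- comparison of coded rationals -/
def ratLe (c d : ℕ × ℕ × ℕ) : Prop :=
  c.1 * (d.2.2 + 1) + d.2.1 * (c.2.2 + 1) ≤ d.1 * (c.2.2 + 1) + c.2.1 * (d.2.2 + 1)

theorem ratLe_iff (c d : ℕ × ℕ × ℕ) : ratLe c d ↔ rat c ≤ rat d := by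
  unfold ratLe rat
  rw [div_le_div_iff₀ (by positivity) (by positivity)]
  constructor
  · intro h
    have h' : ((c.1 * (d.2.2 + 1) + d.2.1 * (c.2.2 + 1) : ℕ) : ℚ) ≤
      ((d.1 * (c.2.2 + 1) + c.2.1 * (d.2.2 + 1) : ℕ) : ℚ) := by exact_mod_cast h
    push_cast at h'
    linarith
  · intro h
    have h' : ((c.1 * (d.2.2 + 1) + d.2.1 * (c.2.2 + 1) : ℕ) : ℚ) ≤
      ((d.1 * (c.2.2 + 1) + c.2.1 * (d.2.2 + 1) : ℕ) : ℚ) := by
      push_cast
      linarith
    exact_mod_cast h'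

/-- formal disjointness -/
def disj (V W : BoxCode) : Prop :=
  ∃ c ∈ V, ∃ d ∈ W, c.1 = d.1 ∧ (ratLe c.2.2 d.2.1 ∨ ratLe d.2.2 c.2.1)

/-- labels at distance at most `2` modulo `4 q` -/
def compat (q e e' : ℕ) : Prop := ∃ δ < 5, (e + 2) % (4 * q) = (e' + δ) % (4 * q)

/-- The decidable part of the certificate. -/
def test (P : List (BoxCode × ℕ)) (c : ℕ × List (BoxCode × ℕ)) : Prop :=
  2 ≤ c.1 ∧ (∀ v ∈ c.2, ∃ u ∈ P, (∀ a ∈ u.1, a ∈ v.1) ∧ v.2 % 4 = u.2 % 4) ∧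
    ∀ v ∈ c.2, ∀ v' ∈ c.2, disj v.1 v'.1 ∨ compat c.1 v.2 v'.2

/-- The list of boxes that has to cover `K`. -/
def cover (B : BoxCode) (c : ℕ × List (BoxCode × ℕ)) : List BoxCode := B :: c.2.map Prod.fst

theorem primrec_ratLe : PrimrecRel ratLe := by
  have c1 : Primrec fun x : (ℕ × ℕ × ℕ) × (ℕ × ℕ × ℕ) => x.1.1 := Primrec.fst.comp Primrec.fst
  have c2 : Primrec fun x : (ℕ × ℕ × ℕ) × (ℕ × ℕ × ℕ) => x.1.2.1 :=
    Primrec.fst.comp (Primrec.snd.comp Primrec.fst)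
  have c3 : Primrec fun x : (ℕ × ℕ × ℕ) × (ℕ × ℕ × ℕ) => x.1.2.2 + 1 :=
    Primrec.succ.comp (Primrec.snd.comp (Primrec.snd.comp Primrec.fst))
  have d1 : Primrec fun x : (ℕ × ℕ × ℕ) × (ℕ × ℕ × ℕ) => x.2.1 := Primrec.fst.comp Primrec.snd
  have d2 : Primrec fun x : (ℕ × ℕ × ℕ) × (ℕ × ℕ × ℕ) => x.2.2.1 :=
    Primrec.fst.comp (Primrec.snd.comp Primrec.snd)
  have d3 : Primrec fun x : (ℕ × ℕ × ℕ) × (ℕ × ℕ × ℕ) => x.2.2.2 + 1 :=
    Primrec.succ.comp (Primrec.snd.comp (Primrec.snd.comp Primrec.snd))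
  exact Primrec.nat_le.comp
    (Primrec.nat_add.comp (Primrec.nat_mul.comp c1 d3) (Primrec.nat_mul.comp d2 c3))
    (Primrec.nat_add.comp (Primrec.nat_mul.comp d1 c3) (Primrec.nat_mul.comp c2 d3))

theorem primrec_disj : PrimrecRel disj := by
  let S : (ℕ × (ℕ × ℕ × ℕ) × (ℕ × ℕ × ℕ)) → (ℕ × (ℕ × ℕ × ℕ) × (ℕ × ℕ × ℕ)) → Prop :=
    fun d c => c.1 = d.1 ∧ (ratLe c.2.2 d.2.1 ∨ ratLe d.2.2 c.2.1)
  have hS : PrimrecRel S := by
    refine PrimrecPred.and ?_ (PrimrecPred.or ?_ ?_)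
    · exact Primrec.eq.comp (Primrec.fst.comp Primrec.snd) (Primrec.fst.comp Primrec.fst)
    · exact primrec_ratLe.comp (Primrec.snd.comp (Primrec.snd.comp Primrec.snd))
        (Primrec.fst.comp (Primrec.snd.comp Primrec.fst))
    · exact primrec_ratLe.comp (Primrec.snd.comp (Primrec.snd.comp Primrec.fst))
        (Primrec.fst.comp (Primrec.snd.comp Primrec.snd))
  have h1 := hS.exists_mem_list.swap
  exact h1.exists_mem_list

theorem primrec_compat : PrimrecRel fun (q : ℕ) (e : ℕ × ℕ) => compat q e.1 e.2 := by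
  let R : ℕ → ℕ × ℕ × ℕ → Prop := fun δ x => (x.2.1 + 2) % (4 * x.1) = (x.2.2 + δ) % (4 * x.1)
  have hR : PrimrecRel R := by
    have hq : Primrec fun x : ℕ × ℕ × ℕ × ℕ => 4 * x.2.1 :=
      Primrec.nat_mul.comp (Primrec.const 4) (Primrec.fst.comp Primrec.snd)
    refine Primrec.eq.comp (Primrec.nat_mod.comp (Primrec.nat_add.comp
      (Primrec.fst.comp (Primrec.snd.comp Primrec.snd)) (Primrec.const 2)) hq)
      (Primrec.nat_mod.comp (Primrec.nat_add.comp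
      (Primrec.snd.comp (Primrec.snd.comp Primrec.snd)) Primrec.fst) hq)
  have h1 : PrimrecPred fun x : ℕ × ℕ × ℕ => ∃ δ ∈ List.range 5, R δ x :=
    hR.exists_mem_list.comp (Primrec.const (List.range 5)) Primrec.id
  refine h1.of_eq fun x => ?_
  simp only [R, compat, List.mem_range]

theorem primrec_test (P : List (BoxCode × ℕ)) : PrimrecPred (test P) := by
  refine PrimrecPred.and ?_ (PrimrecPred.and ?_ ?_)
  · exact Primrec.nat_le.comp (Primrec.const 2) Primrec.fst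
  · -- membership in list
    have hmem : PrimrecRel fun (l : BoxCode) (a : ℕ × (ℕ × ℕ × ℕ) × (ℕ × ℕ × ℕ)) =>
        ∃ b ∈ l, b = a := (Primrec.eq (α := ℕ × (ℕ × ℕ × ℕ) × (ℕ × ℕ × ℕ))).exists_mem_list
    have hsub : PrimrecRel fun (l l' : BoxCode) => ∀ a ∈ l, ∃ b ∈ l', b = a :=
      hmem.swap.forall_mem_list
    have hu : PrimrecRel fun (u v : BoxCode × ℕ) =>
        (∀ a ∈ u.1, ∃ b ∈ v.1, b = a) ∧ v.2 % 4 = u.2 % 4 := by
      refine PrimrecPred.and (hsub.comp (Primrec.fst.comp Primrec.fst)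
        (Primrec.fst.comp Primrec.snd)) ?_
      exact Primrec.eq.comp
        (Primrec.nat_mod.comp (Primrec.snd.comp Primrec.snd) (Primrec.const 4))
        (Primrec.nat_mod.comp (Primrec.snd.comp Primrec.fst) (Primrec.const 4))
    have hv : PrimrecPred fun (v : BoxCode × ℕ) =>
        ∃ u ∈ P, (∀ a ∈ u.1, ∃ b ∈ v.1, b = a) ∧ v.2 % 4 = u.2 % 4 :=
      hu.exists_mem_list.comp (Primrec.const P) Primrec.id
    refine (hv.forall_mem_list.comp (Primrec.snd (α := ℕ))).of_eq fun c => ?_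
    simp only [exists_eq_right]
  · have hin : PrimrecRel fun (v' : BoxCode × ℕ) (x : ℕ × (BoxCode × ℕ)) =>
        disj x.2.1 v'.1 ∨ compat x.1 x.2.2 v'.2 := by
      refine PrimrecPred.or (primrec_disj.comp
        (Primrec.fst.comp (Primrec.snd.comp Primrec.snd)) (Primrec.fst.comp Primrec.fst)) ?_
      exact primrec_compat.comp (Primrec.fst.comp Primrec.snd)
        ((Primrec.snd.comp (Primrec.snd.comp Primrec.snd)).pair (Primrec.snd.comp Primrec.fst))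
    have h2 : PrimrecRel fun (v : BoxCode × ℕ) (c : ℕ × List (BoxCode × ℕ)) =>
        ∀ v' ∈ c.2, disj v.1 v'.1 ∨ compat c.1 v.2 v'.2 :=
      hin.forall_mem_list.comp (Primrec.snd.comp Primrec.snd)
        ((Primrec.fst.comp Primrec.snd).pair Primrec.fst)
    exact h2.forall_mem_list.comp Primrec.snd Primrec.id

theorem primrec_cover : Primrec₂ cover :=
  Primrec.list_cons.comp Primrec.fst
    (Primrec.list_map (Primrec.snd.comp Primrec.snd) (Primrec.fst.comp Primrec.snd).to₂)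

end Pool.Agent.H.MP_f8852a_lc
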