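import Pool.Agent.H.MP_f8852a_lc.Sound

/-!
Completeness of the certificates, and the general criterion.
-/

namespace Pool.Agent.H.MP_f8852a_lc

open Set Filter Topology Real

/-! ### Rational codes and neighbourhood bases -/

theorem rat_surj (r : ℚ) : ∃ c, rat c = r := by
  refine ⟨(r.num.toNat, (-r.num).toNat, r.den - 1), ?_⟩
  unfold rat
  have h1 : ((r.num.toNat : ℚ) - ((-r.num).toNat : ℚ)) = (r.num : ℚ) := by
    have : ((r.num.toNat : ℤ) - ((-r.num).toNat : ℤ)) = r.num := by omega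
    exact_mod_cast this
  have h2 : ((r.den - 1 : ℕ) : ℚ) + 1 = r.den := by
    have := r.den_pos
    have : (r.den - 1) + 1 = r.den := by omega
    exact_mod_cast this
  simp only [h1, h2]
  exact Rat.num_div_den r

theorem exists_code_btwn {a b : ℝ} (h : a < b) : ∃ c, a < ((rat c : ℚ) : ℝ) ∧ ((rat c : ℚ) : ℝ) < b := by
  obtain ⟨r, h1, h2⟩ := exists_rat_btwn h
  obtain ⟨c, rfl⟩ := rat_surj r
  exact ⟨c, h1, h2⟩

theorem exists_box_subset {x : Q} {s : Set Q} (hs : s ∈ 𝓝 x) : ∃ B, x ∈ box B ∧ box B ⊆ s := by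
  classical
  rw [nhds_pi, Filter.mem_pi] at hs
  obtain ⟨I, hI, t, ht, hts⟩ := hs
  have hex : ∀ i, ∃ a b, ((rat a : ℚ) : ℝ) < (x i : ℝ) ∧ (x i : ℝ) < ((rat b : ℚ) : ℝ) ∧
      ∀ y : unitInterval, ((rat a : ℚ) : ℝ) < (y : ℝ) → (y : ℝ) < ((rat b : ℚ) : ℝ) →
        y ∈ t i := by
    intro i
    obtain ⟨ε, hε, hball⟩ := Metric.mem_nhds_iff.1 (ht i)
    obtain ⟨a, ha1, ha2⟩ := exists_code_btwn (show (x i : ℝ) - ε < x i by linarith)
    obtain ⟨b, hb1, hb2⟩ := exists_code_btwn (show (x i : ℝ) < x i + ε by linarith)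
    refine ⟨a, b, ha2, hb1, fun y h1 h2 => hball ?_⟩
    rw [Metric.mem_ball, Subtype.dist_eq, Real.dist_eq, abs_lt]
    constructor <;> linarith
  choose a b h1 h2 h3 using hex
  refine ⟨hI.toFinset.toList.map fun i => (i, a i, b i), ?_, ?_⟩
  · intro c hc
    obtain ⟨i, -, rfl⟩ := List.mem_map.1 hc
    exact ⟨h1 i, h2 i⟩
  · intro y hy
    apply hts
    intro i hi
    have hmem : (i, a i, b i) ∈ hI.toFinset.toList.map fun i => (i, a i, b i) :=
      List.mem_map.2 ⟨i, by simpa using hi, rfl⟩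
    have := hy _ hmem
    exact h3 i _ this.1 this.2

/-- boxes of small size around a point, for the first `k` coordinates -/
theorem exists_small_box (k : ℕ) (x : Q) : ∃ W : BoxCode, x ∈ box W ∧
    (∀ i < k, ∃ c ∈ W, c.1 = i ∧
      ((rat c.2.2 : ℚ) : ℝ) - ((rat c.2.1 : ℚ) : ℝ) ≤ 1 / (2 * (k + 1))) := by
  have hε : (0 : ℝ) < 1 / (4 * (k + 1)) := by positivity
  have hex : ∀ i, ∃ a b, ((rat a : ℚ) : ℝ) < (x i : ℝ) ∧ (x i : ℝ) < ((rat b : ℚ) : ℝ) ∧
      ((rat b : ℚ) : ℝ) - ((rat a : ℚ) : ℝ) ≤ 1 / (2 * (k + 1)) := by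
    intro i
    obtain ⟨a, ha1, ha2⟩ := exists_code_btwn
      (show (x i : ℝ) - 1 / (4 * (k + 1)) < x i by linarith)
    obtain ⟨b, hb1, hb2⟩ := exists_code_btwn
      (show (x i : ℝ) < x i + 1 / (4 * (k + 1)) by linarith)
    refine ⟨a, b, ha2, hb1, ?_⟩
    have : (1 : ℝ) / (2 * (k + 1)) = 1 / (4 * (k + 1)) + 1 / (4 * (k + 1)) := by
      field_simp; norm_num
    linarith
  choose a b h1 h2 h3 using hex
  refine ⟨(List.range k).map fun i => (i, a i, b i), ?_, ?_⟩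
  · intro c hc
    obtain ⟨i, -, rfl⟩ := List.mem_map.1 hc
    exact ⟨h1 i, h2 i⟩
  · intro i hi
    exact ⟨(i, a i, b i), List.mem_map.2 ⟨i, List.mem_range.2 hi, rfl⟩, rfl, h3 i⟩

/-- uniform closeness -/
theorem exists_modulus {Y : Set Q} (hY : IsCompact Y) {h : Q → Circle} (hc : ContinuousOn h Y)
    {α : ℝ} (hα : 0 < α) : ∃ k : ℕ, ∀ x ∈ Y, ∀ y ∈ Y,
      (∀ i < k, |(x i : ℝ) - y i| ≤ 1 / (k + 1)) →
      |Complex.arg ((h x * (h y)⁻¹ : Circle) : ℂ)| < α := by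
  by_contra hcon
  push Not at hcon
  choose x hx y hy hclose hfar using hcon
  obtain ⟨x₀, hx₀, φ, hφ, hxφ⟩ := hY.tendsto_subseq hx
  obtain ⟨y₀, hy₀, ψ, hψ, hyψ⟩ := hY.tendsto_subseq (fun n => hy (φ n))
  have hxψ : Tendsto (fun n => x (φ (ψ n))) atTop (𝓝 x₀) := hxφ.comp hψ.tendsto_atTop
  have hyψ' : Tendsto (fun n => y (φ (ψ n))) atTop (𝓝 y₀) := hyψ
  have hmono : Tendsto (fun n => φ (ψ n)) atTop atTop :=
    hφ.tendsto_atTop.comp hψ.tendsto_atTop
  have heq : x₀ = y₀ := by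
    funext i
    apply Subtype.ext
    have hci : Continuous fun x : Q => (x i : ℝ) :=
      continuous_subtype_val.comp (continuous_apply i)
    have h1 : Tendsto (fun n => ((x (φ (ψ n)) i : ℝ))) atTop (𝓝 (x₀ i : ℝ)) :=
      (hci.tendsto x₀).comp hxψ
    have h2 : Tendsto (fun n => ((y (φ (ψ n)) i : ℝ))) atTop (𝓝 (y₀ i : ℝ)) :=
      (hci.tendsto y₀).comp hyψ'
    have h3 : Tendsto (fun n => |(x (φ (ψ n)) i : ℝ) - y (φ (ψ n)) i|) atTop
        (𝓝 |(x₀ i : ℝ) - y₀ i|) := (h1.sub h2).abs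
    have h4 : Tendsto (fun n : ℕ => (1 : ℝ) / ((φ (ψ n) : ℕ) + 1)) atTop (𝓝 0) :=
      tendsto_one_div_add_atTop_nhds_zero_nat.comp hmono
    have h5 : |(x₀ i : ℝ) - y₀ i| ≤ 0 := by
      refine le_of_tendsto_of_tendsto h3 h4 ?_
      filter_upwards [hmono.eventually (eventually_gt_atTop i)] with n hn
      exact hclose _ i hn
    have h6 := abs_nonpos_iff.1 h5
    linarith
  subst heq
  have hhx : Tendsto (fun n => h (x (φ (ψ n)))) atTop (𝓝 (h x₀)) :=
    (hc x₀ hx₀).tendsto.comp (tendsto_nhdsWithin_iff.2 ⟨hxψ, Eventually.of_forall fun n => hx _⟩)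
  have hhy : Tendsto (fun n => h (y (φ (ψ n)))) atTop (𝓝 (h x₀)) :=
    (hc x₀ hx₀).tendsto.comp (tendsto_nhdsWithin_iff.2 ⟨hyψ', Eventually.of_forall fun n => hy _⟩)
  have hdiv : Tendsto (fun n => ((h (x (φ (ψ n))) * (h (y (φ (ψ n))))⁻¹ : Circle) : ℂ)) atTop
      (𝓝 1) := by
    have h1 := hhx.mul hhy.inv
    rw [mul_inv_cancel] at h1
    have h2 := (continuous_subtype_val.tendsto (1 : Circle)).comp h1
    exact h2
  have harg : Tendsto (fun n => |Complex.arg ((h (x (φ (ψ n))) * (h (y (φ (ψ n))))⁻¹ : Circle) : ℂ)|)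
      atTop (𝓝 0) := by
    have h1 : ContinuousAt Complex.arg 1 := Complex.continuousAt_arg Complex.one_mem_slitPlane
    have h2 := (h1.tendsto.comp hdiv).abs
    simpa using h2
  obtain ⟨n, hn⟩ := (harg.eventually (gt_mem_nhds hα)).exists
  exact absurd hn (not_lt.2 (hfar _))

/-- The label of the value of a root. -/
theorem exists_label {q t : ℕ} (hq : 0 < q) {g z : Circle} (hgz : g ^ q = z)
    (ht : 0 < (rot t z : ℂ).re) : ∃ e : ℕ, e % 4 = t % 4 ∧ ∃ θ : ℝ, |θ| < π / 2 ∧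
      g = Circle.exp ((π / 2 * e + θ) / q) := by
  have hq0 : (q : ℝ) ≠ 0 := by exact_mod_cast hq.ne'
  set θ := Complex.arg (rot t z : ℂ) with hθ
  have h1 : (g * Circle.exp (-((π / 2 * t + θ) / q))) ^ q = 1 := by
    rw [mul_pow, hgz, ← neg_div, exp_div_pow' _ hq, Circle.exp_neg, hθ, exp_arg_rot]
    simp
  -- a `q`-th root of unity is `exp (2 π k / q)` with `k` natural
  obtain ⟨r, hr⟩ := Circle.exp_surjective (g * Circle.exp (-((π / 2 * t + θ) / q)))
  rw [← hr, ← Circle.exp_nsmul, nsmul_eq_mul, Circle.exp_eq_one] at h1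
  obtain ⟨n, hn⟩ := h1
  -- replace `n` by a natural number congruent mod `q`
  set k : ℕ := (n % q).toNat with hk
  have hkn : (k : ℤ) = n % q := by
    rw [hk, Int.toNat_of_nonneg (Int.emod_nonneg _ (by exact_mod_cast hq.ne'))]
  have hdiv : n = k + q * (n / q) := by rw [hkn]; exact (Int.emod_add_mul_ediv n q).symm
  have hre : Circle.exp r = Circle.exp (2 * π * k / q) := by
    rw [Circle.exp_eq_exp]
    refine ⟨n / q, ?_⟩
    have h2 : (n : ℝ) = k + q * ((n / q : ℤ) : ℝ) := by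
      exact_mod_cast congrArg (fun z : ℤ => (z : ℝ)) hdiv
    have h3 : r = n * (2 * π) / q := by
      field_simp
      linarith
    rw [h3, h2]
    field_simp
  refine ⟨t + 4 * k, by omega, θ, abs_arg_lt ht, ?_⟩
  have hg : g = Circle.exp r * Circle.exp ((π / 2 * t + θ) / q) := by
    rw [hr, mul_assoc, ← Circle.exp_add]
    simp
  rw [hg, hre, ← Circle.exp_add]
  congr 1
  push_cast
  field_simp
  ring

/-- Labels of close values are compatible. -/
theorem compat_of_close {q e e' : ℕ} (hq : 0 < q) {g g' : Circle} {θ θ' : ℝ}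
    (h1 : g = Circle.exp ((π / 2 * e + θ) / q)) (h2 : g' = Circle.exp ((π / 2 * e' + θ') / q))
    (hθ : |θ| < π / 2) (hθ' : |θ'| < π / 2)
    (hc : |Complex.arg ((g * g'⁻¹ : Circle) : ℂ)| < π / (2 * q)) : compat q e e' := by
  have hq0 : (0 : ℝ) < q := by exact_mod_cast hq
  have hπ := Real.pi_pos
  set β := Complex.arg ((g * g'⁻¹ : Circle) : ℂ) with hβ
  have hexp : Circle.exp β = Circle.exp ((π / 2 * e + θ) / q - (π / 2 * e' + θ') / q) := by
    rw [hβ, Circle.exp_arg, h1, h2, ← Circle.exp_neg, ← Circle.exp_add, sub_eq_add_neg]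
  obtain ⟨k, hk⟩ := Circle.exp_eq_exp.1 hexp
  rw [abs_lt] at hθ hθ' hc
  have hcq1 : q * β < π / 2 := by
    have := mul_lt_mul_of_pos_left hc.2 hq0
    have e1 : (q : ℝ) * (π / (2 * q)) = π / 2 := by field_simp
    linarith
  have hcq2 : -(π / 2) < q * β := by
    have := mul_lt_mul_of_pos_left hc.1 hq0
    have e1 : (q : ℝ) * (-(π / (2 * q))) = -(π / 2) := by field_simp
    linarith
  have hk' : q * β = (π / 2 * e + θ) - (π / 2 * e' + θ') + k * (2 * π) * q := by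
    rw [hk]; field_simp
  -- `e - e' + 4 k q` lies in `(-3, 3)`
  have a1 : ((e : ℝ) - e' + 4 * k * q) < 3 := by
    have : (π / 2) * ((e : ℝ) - e' + 4 * k * q) < (π / 2) * 3 := by nlinarith
    exact lt_of_mul_lt_mul_left this (by positivity)
  have a2 : -3 < ((e : ℝ) - e' + 4 * k * q) := by
    have : (π / 2) * (-3) < (π / 2) * ((e : ℝ) - e' + 4 * k * q) := by nlinarith
    exact lt_of_mul_lt_mul_left this (by positivity)
  have b1 : ((e : ℤ) - e' + 4 * k * q) < 3 := by exact_mod_cast a1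
  have b2 : -3 < ((e : ℤ) - e' + 4 * k * q) := by exact_mod_cast a2
  obtain ⟨δ, hδ⟩ : ∃ δ : ℕ, (δ : ℤ) = (e : ℤ) - e' + 4 * k * q + 2 :=
    ⟨((e : ℤ) - e' + 4 * k * q + 2).toNat, Int.toNat_of_nonneg (by linarith)⟩
  refine ⟨δ, by omega, ?_⟩
  have hmod : ((e + 2 : ℕ) : ℤ) ≡ ((e' + δ : ℕ) : ℤ) [ZMOD ((4 * q : ℕ) : ℤ)] := by
    rw [Int.modEq_iff_dvd]
    refine ⟨k, ?_⟩
    push_cast
    rw [hδ]
    ring
  exact (Int.natCast_modEq_iff).1 hmod

/-- Completeness. -/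
theorem complete {K : Set Q} (hK : IsCompact K) {F : Q → Circle} {P : List (BoxCode × ℕ)}
    (hP : GoodParams K F P) (hPc : ∀ x ∈ K, ∃ u ∈ P, x ∈ box u.1) {B : BoxCode} {q : ℕ}
    (hq : 2 ≤ q) (hroot : RootOn F q (K \ box B)) :
    ∃ C : List (BoxCode × ℕ), test P (q, C) ∧ K ⊆ ⋃ V ∈ cover B (q, C), box V := by
  classical
  obtain ⟨h, hc, hh⟩ := hroot
  have hq0 : (0 : ℝ) < q := by have : 0 < q := by omega
                               exact_mod_cast this
  have hY : IsCompact (K \ box B) := hK.diff (isOpen_box B)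
  obtain ⟨k, hk⟩ := exists_modulus hY hc (show 0 < π / (2 * q) by have := Real.pi_pos; positivity)
  -- choose the data for each point
  have hdata : ∀ y ∈ K \ box B, ∃ (V : BoxCode) (e : ℕ), y ∈ box V ∧
      (∃ u ∈ P, (∀ a ∈ u.1, a ∈ V) ∧ e % 4 = u.2 % 4) ∧
      (∀ i < k, ∃ c ∈ V, c.1 = i ∧
        ((rat c.2.2 : ℚ) : ℝ) - ((rat c.2.1 : ℚ) : ℝ) ≤ 1 / (2 * (k + 1))) ∧
      ∃ θ : ℝ, |θ| < π / 2 ∧ h y = Circle.exp ((π / 2 * e + θ) / q) := by
    intro y hy
    obtain ⟨u, hu, hyu⟩ := hPc y hy.1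
    obtain ⟨e, he, θ, hθ, hhy⟩ := exists_label (q := q) (by omega) (hh y hy) (hP u hu y hy.1 hyu)
    obtain ⟨W, hyW, hW⟩ := exists_small_box k y
    refine ⟨u.1 ++ W, e, ?_, ⟨u, hu, fun a ha => List.mem_append_left _ ha, he⟩, ?_, θ, hθ, hhy⟩
    · rw [box_append]; exact ⟨hyu, hyW⟩
    · intro i hi
      obtain ⟨c, hc, h1, h2⟩ := hW i hi
      exact ⟨c, List.mem_append_right _ hc, h1, h2⟩
  choose! V e hyV hu hsmall θ hθ hhθ using hdata
  obtain ⟨T, hTY, hT⟩ := hY.elim_nhds_subcover (fun y => box (V y))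
    (fun y hy => (isOpen_box _).mem_nhds (hyV y hy))
  refine ⟨T.toList.map fun y => (V y, e y), ⟨hq, ?_, ?_⟩, ?_⟩
  · intro v hv
    obtain ⟨y, hy, rfl⟩ := List.mem_map.1 hv
    exact hu y (hTY y (Finset.mem_toList.1 hy))
  · intro v hv v' hv'
    obtain ⟨y, hy, rfl⟩ := List.mem_map.1 hv
    obtain ⟨y', hy', rfl⟩ := List.mem_map.1 hv'
    have hyY := hTY y (Finset.mem_toList.1 hy)
    have hyY' := hTY y' (Finset.mem_toList.1 hy')
    by_cases hd : disj (V y) (V y')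
    · exact Or.inl hd
    · refine Or.inr (compat_of_close (q := q) (by omega) (hhθ y hyY) (hhθ y' hyY') (hθ y hyY)
        (hθ y' hyY') (hk y hyY y' hyY' fun i hi => ?_))
      obtain ⟨c, hcV, hci, hcs⟩ := hsmall y hyY i hi
      obtain ⟨d, hdV, hdi, hds⟩ := hsmall y' hyY' i hi
      have hnd : ¬ (ratLe c.2.2 d.2.1 ∨ ratLe d.2.2 c.2.1) := fun hor =>
        hd ⟨c, hcV, d, hdV, hci.trans hdi.symm, hor⟩
      push Not at hnd
      rw [ratLe_iff, ratLe_iff, not_le, not_le] at hnd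
      have n1 : ((rat d.2.1 : ℚ) : ℝ) < ((rat c.2.2 : ℚ) : ℝ) := by exact_mod_cast hnd.1
      have n2 : ((rat c.2.1 : ℚ) : ℝ) < ((rat d.2.2 : ℚ) : ℝ) := by exact_mod_cast hnd.2
      have m1 := hyV y hyY c hcV
      have m2 := hyV y' hyY' d hdV
      rw [hci] at m1
      rw [hdi] at m2
      have hsum : (1 : ℝ) / (k + 1) = 1 / (2 * (k + 1)) + 1 / (2 * (k + 1)) := by
        field_simp; norm_num
      rw [abs_le, hsum]
      constructor <;> linarith [m1.1, m1.2, m2.1, m2.2]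
  · intro x hx
    by_cases hxB : x ∈ box B
    · exact mem_iUnion₂.2 ⟨B, List.mem_cons_self, hxB⟩
    · obtain ⟨y, hyT, hxy⟩ := mem_iUnion₂.1 (hT ⟨hx, hxB⟩)
      refine mem_iUnion₂.2 ⟨V y, List.mem_cons_of_mem _ ?_, hxy⟩
      exact List.mem_map.2 ⟨(V y, e y), List.mem_map.2 ⟨y, Finset.mem_toList.2 hyT, rfl⟩, rfl⟩

/-- Parameters exist. -/
theorem exists_params {K : Set Q} (hK : IsCompact K) {F : Q → Circle} (hF : ContinuousOn F K) :
    ∃ P : List (BoxCode × ℕ), GoodParams K F P ∧ ∀ x ∈ K, ∃ u ∈ P, x ∈ box u.1 := by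
  classical
  have hquad : ∀ z : Circle, ∃ t : ℕ, 0 < (rot t z : ℂ).re := by
    intro z
    have hre : ∀ t : ℕ, (rot t z : ℂ).re =
        (z : ℂ).re * Real.cos (π / 2 * t) + (z : ℂ).im * Real.sin (π / 2 * t) := by
      intro t
      rw [rot, Circle.coe_mul, Circle.coe_exp, Complex.mul_re, Complex.exp_ofReal_mul_I_re,
        Complex.exp_ofReal_mul_I_im, Real.cos_neg, Real.sin_neg]
      ring
    rcases lt_trichotomy (z : ℂ).re 0 with h | h | h
    · refine ⟨2, ?_⟩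
      rw [hre]
      have : π / 2 * ((2 : ℕ) : ℝ) = π := by push_cast; ring
      rw [this, Real.cos_pi, Real.sin_pi]
      linarith
    · rcases lt_trichotomy (z : ℂ).im 0 with h' | h' | h'
      · refine ⟨3, ?_⟩
        rw [hre, h]
        have : π / 2 * ((3 : ℕ) : ℝ) = π / 2 + π := by push_cast; ring
        rw [this, Real.sin_add_pi, Real.sin_pi_div_two]
        linarith
      · exact absurd (Complex.ext h h') (Circle.coe_ne_zero z)
      · refine ⟨1, ?_⟩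
        rw [hre, h]
        have : π / 2 * ((1 : ℕ) : ℝ) = π / 2 := by push_cast; ring
        rw [this, Real.sin_pi_div_two]
        linarith
    · refine ⟨0, ?_⟩
      rw [hre]
      simpa using h
  have hex : ∀ x ∈ K, ∃ (U : BoxCode) (t : ℕ), x ∈ box U ∧
      ∀ y ∈ K, y ∈ box U → 0 < (rot t (F y) : ℂ).re := by
    intro x hx
    obtain ⟨t, ht⟩ := hquad (F x)
    have hcont : ContinuousOn (fun y => (rot t (F y) : ℂ).re) K := by
      have h1 : Continuous fun z : Circle => (rot t z : ℂ).re :=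
        Complex.continuous_re.comp (continuous_subtype_val.comp (continuous_id.mul continuous_const))
      exact h1.comp_continuousOn hF
    have hev : ∀ᶠ y in 𝓝[K] x, 0 < (rot t (F y) : ℂ).re :=
      (hcont x hx).eventually (lt_mem_nhds ht)
    rw [eventually_nhdsWithin_iff] at hev
    obtain ⟨U, hxU, hU⟩ := exists_box_subset hev
    exact ⟨U, t, hxU, fun y hyK hyU => hU hyU hyK⟩
  choose! U t hxU hU using hex
  obtain ⟨T, hTK, hT⟩ := hK.elim_nhds_subcover (fun x => box (U x))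
    (fun x hx => (isOpen_box _).mem_nhds (hxU x hx))
  refine ⟨T.toList.map fun x => (U x, t x), ?_, ?_⟩
  · intro u hu y hyK hy
    obtain ⟨x, hx, rfl⟩ := List.mem_map.1 hu
    exact hU x (hTK x (Finset.mem_toList.1 hx)) y hyK hy
  · intro x hx
    obtain ⟨y, hyT, hxy⟩ := mem_iUnion₂.1 (hT hx)
    exact ⟨(U y, t y), List.mem_map.2 ⟨y, Finset.mem_toList.2 hyT, rfl⟩, hxy⟩

/-- The general criterion. -/
theorem ce_meets {O : Set ℕ} {K : Set Q} (hsc : Semicomputable O K) {F : Q → Circle}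
    (hF : ContinuousOn F K)
    (hiff : ∀ B : BoxCode, (box B ∩ K).Nonempty ↔ ∃ q, 2 ≤ q ∧ RootOn F q (K \ box B)) :
    CE O {B : BoxCode | (box B ∩ K).Nonempty} := by
  obtain ⟨P, hP, hPc⟩ := exists_params hsc.1 hF
  have h := CE.exists_of hsc.2 (T := fun (_ : BoxCode) c => test P c)
    ((primrec_test P).comp Primrec.snd) primrec_cover
  have e : {B : BoxCode | (box B ∩ K).Nonempty} = {B : BoxCode | ∃ c, test P c ∧
      cover B c ∈ {L : List BoxCode | K ⊆ ⋃ V ∈ L, box V}} := by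
    ext B
    simp only [mem_ofPred_eq]
    rw [hiff B]
    constructor
    · rintro ⟨q, hq, hroot⟩
      obtain ⟨C, h1, h2⟩ := complete hsc.1 hP hPc hq hroot
      exact ⟨(q, C), h1, h2⟩
    · rintro ⟨c, h1, h2⟩
      exact ⟨c.1, h1.1, sound hF hP h1 h2⟩
  rw [e]
  exact h

end Pool.Agent.H.MP_f8852a_lc
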