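import Mathlib

/-!
Definitions for MP_f8852a_lc (strong computable type): the Hilbert cube, its numbered basic open
sets, sets that are c.e. relative to an oracle, (semi)computable compact sets, and spaces of
strong computable type.
-/

namespace Pool.Agent.H.MP_f8852a_lc

/-- The Hilbert cube `[0,1]^ℕ` with the product topology. -/
abbrev Q : Type := ℕ → unitInterval

/-- The rational number coded by the triple `(p, q, r)` of naturals is `(p - q) / (r + 1)`. -/
def rat (c : ℕ × ℕ × ℕ) : ℚ := ((c.1 : ℚ) - (c.2.1 : ℚ)) / ((c.2.2 : ℚ) + 1)

/-- A code of a basic open set: a finite list of triples (coordinate, left endpoint, right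
endpoint), the endpoints being coded rationals.  This type carries Mathlib's `Primcodable`
structure, which is the effective numbering. -/
abbrev BoxCode : Type := List (ℕ × (ℕ × ℕ × ℕ) × (ℕ × ℕ × ℕ))

/-- The basic open subset of the Hilbert cube with code `B`: the points `x` with
`a < x i < b` for all `(i, a, b)` in `B`. -/
def box (B : BoxCode) : Set Q :=
  {x | ∀ c ∈ B, ((rat c.2.1 : ℚ) : ℝ) < (x c.1 : ℝ) ∧ (x c.1 : ℝ) < ((rat c.2.2 : ℚ) : ℝ)}

open Classical in
/-- The characteristic function of the oracle `O`. -/
noncomputable def chi (O : Set ℕ) : ℕ →. ℕ := fun n => Part.some (if n ∈ O then 1 else 0)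

/-- `A` is computably enumerable relative to the oracle `O`: it is the domain of a partial
function that is recursive in (the characteristic function of) `O`. -/
def CE (O : Set ℕ) {α : Type} [Primcodable α] (A : Set α) : Prop :=
  ∃ f : α →. ℕ, RecursiveIn {chi O} f ∧ ∀ a, a ∈ A ↔ (f a).Dom

/-- A compact set `K ⊆ Q` is semicomputable relative to `O` if the set of finite lists of basic
open sets that cover `K` is c.e. relative to `O`. -/
def Semicomputable (O : Set ℕ) (K : Set Q) : Prop :=
  IsCompact K ∧ CE O {L : List BoxCode | K ⊆ ⋃ B ∈ L, box B}

/-- A compact set `K ⊆ Q` is computable relative to `O` if it is semicomputable relative to `O`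
and the set of basic open sets that meet `K` is c.e. relative to `O`. -/
def ComputableCompact (O : Set ℕ) (K : Set Q) : Prop :=
  Semicomputable O K ∧ CE O {B : BoxCode | (box B ∩ K).Nonempty}

/-- `X` has strong computable type: for every oracle `O` and every copy `K ⊆ Q` of `X`, if `K`
is semicomputable relative to `O` then `K` is computable relative to `O`. -/
def StrongComputableType (X : Type) [TopologicalSpace X] : Prop :=
  ∀ (O : Set ℕ) (K : Set Q), Nonempty (X ≃ₜ K) → Semicomputable O K → ComputableCompact O K

end Pool.Agent.H.MP_f8852a_lc
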