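import Pool.Agent.H.MP_f8852a_lc.Space
import Pool.Agent.H.MP_f8852a_lc.Complete

/-!
The space `X` has strong computable type.
-/

namespace Pool.Agent.H.MP_f8852a_lc

open Set Filter Topology

theorem strong_X : StrongComputableType X := by
  classical
  rintro O K ⟨φ⟩ hsc
  refine ⟨hsc, ?_⟩
  let z : X → Circle := fun x => x.1.2 1
  have hz : Continuous z := (cont_w 1).comp continuous_subtype_val
  let F : Q → Circle := fun y => if hy : y ∈ K then z (φ.symm ⟨y, hy⟩) else 1
  have hFr : ∀ y : K, F y.1 = z (φ.symm y) := fun y => by simp only [F, dif_pos y.2]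
  have hF : ContinuousOn F K := by
    rw [continuousOn_iff_continuous_domRestrict]
    have : K.domRestrict F = fun y => z (φ.symm y) := funext hFr
    rw [this]
    exact hz.comp φ.symm.continuous
  refine ce_meets hsc hF fun B => ⟨fun hne => ?_, ?_⟩
  · -- a root off a nonempty open set
    let U : Set X := {x | (φ x : Q) ∈ box B}
    have hφ : Continuous fun x : X => (φ x : Q) := continuous_subtype_val.comp φ.continuous
    have hU : IsOpen U := (isOpen_box B).preimage hφ
    have hUne : U.Nonempty := by
      obtain ⟨y, hyB, hyK⟩ := hne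
      refine ⟨φ.symm ⟨y, hyK⟩, ?_⟩
      change ((φ (φ.symm ⟨y, hyK⟩) : K) : Q) ∈ box B
      rw [φ.apply_symm_apply]
      exact hyB
    obtain ⟨q, hq, h, hc, hh⟩ := root_off hU hUne
    refine ⟨q, hq.two_le, fun y => if hy : y ∈ K then h (φ.symm ⟨y, hy⟩) else 1, ?_, ?_⟩
    · rw [continuousOn_iff_continuous_domRestrict]
      have e : (K \ box B).domRestrict
          (fun y => if hy : y ∈ K then h (φ.symm ⟨y, hy⟩) else 1) =
          Uᶜ.domRestrict h ∘ fun y : ↥(K \ box B) => (⟨φ.symm ⟨y.1, y.2.1⟩, by
            change ¬ ((φ (φ.symm ⟨y.1, y.2.1⟩) : K) : Q) ∈ box B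
            rw [φ.apply_symm_apply]
            exact y.2.2⟩ : ↥(Uᶜ)) := by
        funext y
        simp only [Set.domRestrict_apply, dif_pos y.2.1, Function.comp_apply]
      rw [e]
      refine (continuousOn_iff_continuous_domRestrict.1 hc).comp ?_
      exact Continuous.subtype_mk (φ.symm.continuous.comp
        (Continuous.subtype_mk continuous_subtype_val _)) _
    · intro y hy
      have hyU : φ.symm ⟨y, hy.1⟩ ∈ Uᶜ := by
        change ¬ ((φ (φ.symm ⟨y, hy.1⟩) : K) : Q) ∈ box B
        rw [φ.apply_symm_apply]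
        exact hy.2
      simp only [dif_pos hy.1, F]
      exact hh _ hyU
  · rintro ⟨q, hq, h, hc, hh⟩
    by_contra hcon
    have hKB : K \ box B = K := by
      ext y
      simp only [Set.mem_sdiff, and_iff_left_iff_imp]
      exact fun hy hyB => hcon ⟨y, hyB, hy⟩
    rw [hKB] at hc hh
    obtain ⟨p, hp, r, rfl⟩ := Nat.exists_prime_and_dvd (show q ≠ 1 by omega)
    refine no_root p hp (fun x => h (φ x) ^ r) ?_ ?_
    · exact (Continuous.pow ((continuousOn_iff_continuous_domRestrict.1 hc).comp φ.continuous) r)
    · intro x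
      rw [← pow_mul, mul_comm r p, hh _ (φ x).2, hFr, φ.symm_apply_apply]

theorem main : ∃ (X : Type) (_ : TopologicalSpace X), CompactSpace X ∧
    TopologicalSpace.MetrizableSpace X ∧ Infinite (ConnectedComponents X) ∧
    StrongComputableType X :=
  ⟨X, inferInstance, inferInstance, inferInstance, infinite_components, strong_X⟩

end Pool.Agent.H.MP_f8852a_lc
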