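import Pool.Agent.H.MP_f8852a_lc.Cert

/-!
Soundness of the certificates: a certificate glues to a continuous `q`-th root.
-/

namespace Pool.Agent.H.MP_f8852a_lc

open Set Filter Topology Real

/-! ### Boxes -/

theorem isOpen_box (B : BoxCode) : IsOpen (box B) := by
  induction B with
  | nil =>
    have : box [] = univ := by ext x; simp [box]
    rw [this]; exact isOpen_univ
  | cons c B ih =>
    have : box (c :: B) = {x : Q | ((rat c.2.1 : ℚ) : ℝ) < (x c.1 : ℝ)} ∩
        {x : Q | (x c.1 : ℝ) < ((rat c.2.2 : ℚ) : ℝ)} ∩ box B := by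
      ext x
      simp only [box, List.mem_cons, forall_eq_or_imp, mem_ofPred_eq, mem_inter_iff]
    rw [this]
    have hc : Continuous fun x : Q => (x c.1 : ℝ) :=
      continuous_subtype_val.comp (continuous_apply c.1)
    exact ((isOpen_lt continuous_const hc).inter (isOpen_lt hc continuous_const)).inter ih

theorem box_mono {U V : BoxCode} (h : ∀ a ∈ U, a ∈ V) : box V ⊆ box U :=
  fun _ hx c hc => hx c (h c hc)

theorem box_append (U V : BoxCode) : box (U ++ V) = box U ∩ box V := by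
  ext x
  simp only [box, List.mem_append, mem_ofPred_eq, mem_inter_iff]
  constructor
  · exact fun h => ⟨fun c hc => h c (Or.inl hc), fun c hc => h c (Or.inr hc)⟩
  · rintro ⟨h1, h2⟩ c (hc | hc)
    · exact h1 c hc
    · exact h2 c hc

theorem disj_sound {V W : BoxCode} (h : disj V W) {x : Q} (hV : x ∈ box V) (hW : x ∈ box W) :
    False := by
  obtain ⟨c, hc, d, hd, hcd, h⟩ := h
  have h1 := hV c hc
  have h2 := hW d hd
  rw [hcd] at h1
  rcases h with h | h
  · rw [ratLe_iff] at h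
    have h' : ((rat c.2.2 : ℚ) : ℝ) ≤ ((rat d.2.1 : ℚ) : ℝ) := by exact_mod_cast h
    linarith [h1.2, h2.1]
  · rw [ratLe_iff] at h
    have h' : ((rat d.2.2 : ℚ) : ℝ) ≤ ((rat c.2.1 : ℚ) : ℝ) := by exact_mod_cast h
    linarith [h1.1, h2.2]

/-! ### Local roots -/

/-- `z` rotated back by `e` quarter turns -/
noncomputable def rot (e : ℕ) (z : Circle) : Circle := z * Circle.exp (-(π / 2 * e))

/-- the `q`-th root of `z` on the sheet labelled `e` -/
noncomputable def rt (q e : ℕ) (z : Circle) : Circle :=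
  Circle.exp ((π / 2 * e + Complex.arg (rot e z : ℂ)) / q)

theorem exp_div_pow' (t : ℝ) {a : ℕ} (ha : 0 < a) : Circle.exp (t / a) ^ a = Circle.exp t := by
  rw [← Circle.exp_nsmul]
  congr 1
  rw [nsmul_eq_mul]
  have : (a : ℝ) ≠ 0 := by exact_mod_cast ha.ne'
  field_simp

theorem exp_arg_rot (e : ℕ) (z : Circle) :
    Circle.exp (π / 2 * e + Complex.arg (rot e z : ℂ)) = z := by
  rw [Circle.exp_add, Circle.exp_arg, rot, mul_comm z, ← mul_assoc, ← Circle.exp_add]
  simp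

theorem rt_pow {q : ℕ} (hq : 0 < q) (e : ℕ) (z : Circle) : rt q e z ^ q = z := by
  rw [rt, exp_div_pow' _ hq, exp_arg_rot]

theorem rot_congr {e e' : ℕ} (h : e % 4 = e' % 4) (z : Circle) : rot e z = rot e' z := by
  unfold rot
  congr 1
  rw [Circle.exp_eq_exp]
  obtain ⟨a, r, ha⟩ : ∃ a r, e = 4 * a + r ∧ r = e % 4 := ⟨e / 4, e % 4, by omega, rfl⟩
  obtain ⟨b, hb⟩ : ∃ b, e' = 4 * b + r := ⟨e' / 4, by omega⟩
  refine ⟨(b : ℤ) - (a : ℤ), ?_⟩
  rw [ha.1, hb]
  push_cast
  ring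

theorem abs_arg_lt {z : Circle} (h : 0 < (z : ℂ).re) : |Complex.arg (z : ℂ)| < π / 2 :=
  Complex.abs_arg_lt_pi_div_two_iff.2 (Or.inl h)

/-- Sheets with compatible labels agree. -/
theorem rt_agree {q e e' : ℕ} (hq : 0 < q) (h : compat q e e') {z : Circle}
    (h1 : |Complex.arg (rot e z : ℂ)| < π / 2) (h2 : |Complex.arg (rot e' z : ℂ)| < π / 2) :
    rt q e z = rt q e' z := by
  obtain ⟨δ, hδ, hmod⟩ := h
  have hq0 : (0 : ℝ) < q := by exact_mod_cast hq
  have hπ := Real.pi_pos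
  have hEq : Circle.exp (π / 2 * e + Complex.arg (rot e z : ℂ)) =
      Circle.exp (π / 2 * e' + Complex.arg (rot e' z : ℂ)) := by
    rw [exp_arg_rot, exp_arg_rot]
  obtain ⟨k, hk⟩ := Circle.exp_eq_exp.1 hEq
  -- e + 2 = e' + δ + 4 q l
  have hmod' : ((e + 2 : ℕ) : ℤ) ≡ ((e' + δ : ℕ) : ℤ) [ZMOD ((4 * q : ℕ) : ℤ)] :=
    (Int.natCast_modEq_iff).2 hmod
  obtain ⟨l, hl⟩ := hmod'.symm.dvd
  have hl' : (e : ℝ) - e' = (δ : ℝ) - 2 + 4 * q * l := by
    have : ((e : ℤ) + 2) - (e' + δ) = 4 * q * l := by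
      push_cast at hl
      linarith
    have : (((e : ℤ) + 2 - (e' + δ) : ℤ) : ℝ) = ((4 * q * l : ℤ) : ℝ) := by rw [this]
    push_cast at this
    linarith
  have hδ' : (δ : ℝ) ≤ 4 := by
    have : δ ≤ 4 := by omega
    exact_mod_cast this
  have hδ0 : (0 : ℝ) ≤ δ := Nat.cast_nonneg δ
  rw [abs_lt] at h1 h2
  -- `k = q l`
  have hkl : (k : ℝ) - q * l < 1 := by
    have : (k - q * l : ℝ) * (2 * π) < 1 * (2 * π) := by nlinarith
    exact lt_of_mul_lt_mul_right this (by positivity)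
  have hkl' : (-1 : ℝ) < (k : ℝ) - q * l := by
    have : (-1 : ℝ) * (2 * π) < (k - q * l : ℝ) * (2 * π) := by nlinarith
    exact lt_of_mul_lt_mul_right this (by positivity)
  have hkeq : k = q * l := by
    have a1 : k - q * l < 1 := by exact_mod_cast hkl
    have a2 : -1 < k - q * l := by exact_mod_cast hkl'
    omega
  unfold rt
  rw [Circle.exp_eq_exp]
  refine ⟨l, ?_⟩
  rw [hk, hkeq]
  push_cast
  field_simp

theorem continuousAt_rt {q e : ℕ} {z : Circle} (h : 0 < (rot e z : ℂ).re) :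
    ContinuousAt (rt q e) z := by
  have h1 : ContinuousAt (fun z : Circle => Complex.arg (rot e z : ℂ)) z := by
    have h2 : Continuous fun z : Circle => (rot e z : ℂ) :=
      continuous_subtype_val.comp (continuous_id.mul continuous_const)
    exact ContinuousAt.comp (g := Complex.arg)
      (Complex.continuousAt_arg (Complex.mem_slitPlane_iff.2 (Or.inl h))) h2.continuousAt
  exact Circle.exp.continuous.continuousAt.comp ((continuousAt_const.add h1).div_const _)

/-- `F` has a continuous `q`-th root on `Y`. -/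
def RootOn (F : Q → Circle) (q : ℕ) (Y : Set Q) : Prop :=
  ∃ h : Q → Circle, ContinuousOn h Y ∧ ∀ x ∈ Y, h x ^ q = F x

/-- Parameters: basic open sets on which `F` stays in a half plane. -/
def GoodParams (K : Set Q) (F : Q → Circle) (P : List (BoxCode × ℕ)) : Prop :=
  ∀ u ∈ P, ∀ x ∈ K, x ∈ box u.1 → 0 < (rot u.2 (F x) : ℂ).re

theorem sound {K : Set Q} {F : Q → Circle} (hF : ContinuousOn F K) {P : List (BoxCode × ℕ)}
    (hP : GoodParams K F P) {B : BoxCode} {c : ℕ × List (BoxCode × ℕ)} (hT : test P c)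
    (hcov : K ⊆ ⋃ V ∈ cover B c, box V) : RootOn F c.1 (K \ box B) := by
  classical
  obtain ⟨hq, hT1, hT2⟩ := hT
  have hex : ∀ x ∈ K \ box B, ∃ v ∈ c.2, x ∈ box v.1 := by
    intro x hx
    obtain ⟨V, hV, hxV⟩ := mem_iUnion₂.1 (hcov hx.1)
    rcases List.mem_cons.1 hV with rfl | hV
    · exact absurd hxV hx.2
    · obtain ⟨v, hv, rfl⟩ := List.mem_map.1 hV
      exact ⟨v, hv, hxV⟩
  have hpos : ∀ v ∈ c.2, ∀ x ∈ K, x ∈ box v.1 → 0 < (rot v.2 (F x) : ℂ).re := by
    intro v hv x hxK hx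
    obtain ⟨u, hu, hsub, hmod⟩ := hT1 v hv
    rw [rot_congr hmod]
    exact hP u hu x hxK (box_mono hsub hx)
  have hag : ∀ v ∈ c.2, ∀ v' ∈ c.2, ∀ x ∈ K, x ∈ box v.1 → x ∈ box v'.1 →
      rt c.1 v.2 (F x) = rt c.1 v'.2 (F x) := by
    intro v hv v' hv' x hxK hx hx'
    rcases hT2 v hv v' hv' with h | h
    · exact (disj_sound h hx hx').elim
    · exact rt_agree (by omega) h (abs_arg_lt (hpos v hv x hxK hx))
        (abs_arg_lt (hpos v' hv' x hxK hx'))
  let h : Q → Circle := fun x =>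
    if hx : ∃ v ∈ c.2, x ∈ box v.1 then rt c.1 (Classical.choose hx).2 (F x) else 1
  have hh : ∀ v ∈ c.2, ∀ x ∈ K, x ∈ box v.1 → h x = rt c.1 v.2 (F x) := by
    intro v hv x hxK hx
    have hx' : ∃ v ∈ c.2, x ∈ box v.1 := ⟨v, hv, hx⟩
    simp only [h, dif_pos hx']
    exact hag _ (Classical.choose_spec hx').1 v hv x hxK (Classical.choose_spec hx').2 hx
  refine ⟨h, ?_, ?_⟩
  · intro x hx
    obtain ⟨v, hv, hxv⟩ := hex x hx
    have h1 : ContinuousWithinAt (fun y => rt c.1 v.2 (F y)) (K \ box B) x :=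
      ContinuousAt.comp_continuousWithinAt (g := rt c.1 v.2) (f := F)
        (continuousAt_rt (hpos v hv x hx.1 hxv)) ((hF x hx.1).mono sdiff_subset)
    refine h1.congr_of_eventuallyEq ?_ (hh v hv x hx.1 hxv)
    filter_upwards [mem_nhdsWithin_of_mem_nhds ((isOpen_box v.1).mem_nhds hxv),
      self_mem_nhdsWithin] with y hy hy'
    exact hh v hv y hy'.1 hy
  · intro x hx
    obtain ⟨v, hv, hxv⟩ := hex x hx
    rw [hh v hv x hx.1 hxv, rt_pow (by omega)]

end Pool.Agent.H.MP_f8852a_lc
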