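import Pool.Agent.H.MP_f8852a_lc.Defs

/-!
The space: a sequence of solenoids `X_p` (`p` prime), where `X_p` is the solenoid with all
winding numbers prime to `p`, converging to the full solenoid.
-/

namespace Pool.Agent.H.MP_f8852a_lc

open Set Filter Topology

/-- Points `(s, w)`: `s` marks at most one prime `p`; `w` is a compatible system of roots
`w (a b) ^ a = w b`, for all indices prime to the marked `p`; `w m = 1` if `p ∣ m`. -/
def Xset : Set ((ℕ → Bool) × (ℕ → Circle)) := {x |
   (∀ p, x.1 p = true → p.Prime) ∧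
   (∀ p p', x.1 p = true → x.1 p' = true → p = p') ∧
   x.2 0 = 1 ∧
   (∀ a b, 0 < a → 0 < b → (∀ p, x.1 p = true → ¬ p ∣ a * b) → x.2 (a * b) ^ a = x.2 b) ∧
   (∀ p m, x.1 p = true → p ∣ m → x.2 m = 1)}

theorem cont_s (p : ℕ) : Continuous fun x : (ℕ → Bool) × (ℕ → Circle) => x.1 p :=
  (continuous_apply p).comp continuous_fst

theorem cont_w (m : ℕ) : Continuous fun x : (ℕ → Bool) × (ℕ → Circle) => x.2 m :=
  (continuous_apply m).comp continuous_snd

theorem clopen_s (p : ℕ) : IsClopen {x : (ℕ → Bool) × (ℕ → Circle) | x.1 p = true} :=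
  (isClopen_discrete {true}).preimage (cont_s p)

theorem isClosed_Xset : IsClosed Xset := by
  have h1 : IsClosed {x : (ℕ → Bool) × (ℕ → Circle) | ∀ p, x.1 p = true → p.Prime} := by
    simp only [ofPred_forall]
    refine isClosed_iInter fun p => ?_
    by_cases hp : p.Prime
    · simp [hp]
    · have : {x : (ℕ → Bool) × (ℕ → Circle) | x.1 p = true → p.Prime} =
        {x | x.1 p = true}ᶜ := by ext x; simp [hp]
      rw [this]
      exact (clopen_s p).compl.isClosed
  have h2 : IsClosed {x : (ℕ → Bool) × (ℕ → Circle) |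
      ∀ p p', x.1 p = true → x.1 p' = true → p = p'} := by
    simp only [ofPred_forall]
    refine isClosed_iInter fun p => isClosed_iInter fun p' => ?_
    by_cases hp : p = p'
    · simp [hp]
    · have : (⋂ (_ : (ℕ → Bool) × (ℕ → Circle)), (univ : Set ℕ)) = univ := by simp
      have : {x : (ℕ → Bool) × (ℕ → Circle) | x.1 p = true → x.1 p' = true → p = p'} =
        {x | x.1 p = true}ᶜ ∪ {x | x.1 p' = true}ᶜ := by
        ext x
        simp only [mem_ofPred_eq, mem_union, mem_compl_iff, hp]
        tauto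
      have h := ((clopen_s p).compl.isClosed.union (clopen_s p').compl.isClosed)
      rw [← this] at h
      exact h
  have h3 : IsClosed {x : (ℕ → Bool) × (ℕ → Circle) | x.2 0 = 1} :=
    isClosed_eq (cont_w 0) continuous_const
  have h4 : IsClosed {x : (ℕ → Bool) × (ℕ → Circle) | ∀ a b, 0 < a → 0 < b →
      (∀ p, x.1 p = true → ¬ p ∣ a * b) → x.2 (a * b) ^ a = x.2 b} := by
    simp only [ofPred_forall]
    refine isClosed_iInter fun a => isClosed_iInter fun b => isClosed_iInter fun ha =>
      isClosed_iInter fun hb => ?_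
    have : {x : (ℕ → Bool) × (ℕ → Circle) | (∀ p, x.1 p = true → ¬ p ∣ a * b) →
        x.2 (a * b) ^ a = x.2 b} = (⋃ p ∈ (a * b).divisors, {x | x.1 p = true}) ∪
          {x | x.2 (a * b) ^ a = x.2 b} := by
      ext x
      simp only [mem_ofPred_eq, mem_union, mem_iUnion, Nat.mem_divisors, exists_prop]
      constructor
      · intro h
        by_cases h' : ∀ p, x.1 p = true → ¬ p ∣ a * b
        · exact Or.inr (h h')
        · push Not at h'
          obtain ⟨p, hp, hd⟩ := h'
          exact Or.inl ⟨p, ⟨hd, (Nat.mul_pos ha hb).ne'⟩, hp⟩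
      · rintro (⟨p, ⟨hd, -⟩, hp⟩ | h) h'
        · exact absurd hd (h' p hp)
        · exact h
    rw [this]
    refine IsClosed.union ?_ (isClosed_eq ((cont_w _).pow a) (cont_w b))
    exact (a * b).divisors.finite_toSet.isClosed_biUnion fun p _ => (clopen_s p).isClosed
  have h5 : IsClosed {x : (ℕ → Bool) × (ℕ → Circle) |
      ∀ p m, x.1 p = true → p ∣ m → x.2 m = 1} := by
    simp only [ofPred_forall]
    refine isClosed_iInter fun p => isClosed_iInter fun m => ?_
    have : {x : (ℕ → Bool) × (ℕ → Circle) | x.1 p = true → p ∣ m → x.2 m = 1} =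
        {x | x.1 p = true}ᶜ ∪ {x | p ∣ m → x.2 m = 1} := by
      ext x
      simp only [mem_ofPred_eq, mem_union, mem_compl_iff]
      tauto
    have h' : IsClosed {x : (ℕ → Bool) × (ℕ → Circle) | p ∣ m → x.2 m = 1} := by
      by_cases hm : p ∣ m
      · simp only [hm, true_imp_iff]
        exact isClosed_eq (cont_w m) continuous_const
      · simp [hm]
    have h := ((clopen_s p).compl.isClosed.union h')
    rw [← this] at h
    simpa only [ofPred_forall] using h
  exact h1.inter (h2.inter (h3.inter (h4.inter h5)))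

/-- the space -/
abbrev X : Type := Xset

instance : CompactSpace X := isCompact_iff_compactSpace.1 isClosed_Xset.isCompact

instance : TopologicalSpace.MetrizableSpace X := inferInstance

theorem w_eq_pow (x : X) {a b : ℕ} (ha : 0 < a) (hb : 0 < b)
    (h : ∀ p, x.1.1 p = true → ¬ p ∣ a * b) : x.1.2 (a * b) ^ a = x.1.2 b :=
  x.2.2.2.2.1 a b ha hb h

/-- the point of `X_q` closest to `x ∈ X_∞` -/
noncomputable def toFib (q : ℕ) (w : ℕ → Circle) : (ℕ → Bool) × (ℕ → Circle) :=
  (fun p => decide (p = q), fun m => if q ∣ m then 1 else w m)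

theorem toFib_mem {q : ℕ} (hq : q.Prime) {w : ℕ → Circle}
    (hw : ∀ a b, 0 < a → 0 < b → ¬ q ∣ a * b → w (a * b) ^ a = w b) : toFib q w ∈ Xset := by
  refine ⟨?_, ?_, ?_, ?_, ?_⟩
  · intro p hp
    have : p = q := by simpa [toFib] using hp
    rw [this]; exact hq
  · intro p p' hp hp'
    have h1 : p = q := by simpa [toFib] using hp
    have h2 : p' = q := by simpa [toFib] using hp'
    rw [h1, h2]
  · simp [toFib]
  · intro a b ha hb h
    have hd : ¬ q ∣ a * b := h q (by simp [toFib])
    have hb' : ¬ q ∣ b := fun h => hd (Dvd.dvd.mul_left h a)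
    simp only [toFib, if_neg hd, if_neg hb']
    exact hw a b ha hb hd
  · intro p m hp hd
    have h1 : p = q := by simpa [toFib] using hp
    subst h1
    simp [toFib, hd]

/-- a base point in each `X_q` -/
noncomputable def basePt (q : Nat.Primes) : X :=
  ⟨toFib q.1 (fun _ => 1), toFib_mem q.2 (fun _ _ _ _ _ => one_pow _)⟩

theorem infinite_components : Infinite (ConnectedComponents X) := by
  have hc : Continuous fun x : X => x.1.1 := continuous_fst.comp continuous_subtype_val
  have : Function.Injective fun q : Nat.Primes => (ConnectedComponents.mk (basePt q)) := by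
    intro q q' h
    have h' := congrArg hc.connectedComponentsLift h
    simp only [Continuous.connectedComponentsLift_apply_coe] at h'
    have h'' := congrFun h' q.1
    simp only [basePt, toFib] at h''
    have : q.1 = q'.1 := by simpa using h''
    exact Subtype.ext this
  have hinf : Infinite Nat.Primes := Nat.infinite_setOfPred_prime.to_subtype
  exact Infinite.of_injective _ this

/-! ### The first coordinate has no continuous `q`-th root -/

theorem finite_roots {q : ℕ} (hq : 0 < q) : {ζ : Circle | ζ ^ q = 1}.Finite := by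
  have h1 : {z : ℂ | z ^ q = 1}.Finite := by
    have : NeZero q := ⟨hq.ne'⟩
    refine (Polynomial.nthRootsFinset q (1 : ℂ)).finite_toSet.subset fun z hz => ?_
    rw [Finset.mem_coe, Polynomial.mem_nthRootsFinset hq]
    exact hz
  refine (h1.preimage (f := fun ζ : Circle => (ζ : ℂ)) (Circle.coe_injective.injOn)).subset ?_
  intro ζ hζ
  have : ζ ^ q = 1 := hζ
  change (ζ : ℂ) ^ q = 1
  rw [← Circle.coe_pow, this, Circle.coe_one]

theorem exp_div_pow (t : ℝ) {a : ℕ} (ha : 0 < a) : Circle.exp (t / a) ^ a = Circle.exp t := by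
  rw [← Circle.exp_nsmul]
  congr 1
  rw [nsmul_eq_mul]
  have : (a : ℝ) ≠ 0 := by exact_mod_cast ha.ne'
  field_simp

/-- the path in `X_q` -/
noncomputable def path (q : Nat.Primes) (t : ℝ) : X :=
  ⟨toFib q.1 (fun m => Circle.exp (2 * Real.pi * t / m)), toFib_mem q.2 (fun a b ha hb _ => by
    have := exp_div_pow (2 * Real.pi * t / b) ha
    rw [← this]
    congr 2
    push_cast
    rw [mul_comm (a : ℝ) (b : ℝ), div_div])⟩

theorem continuous_path (q : Nat.Primes) : Continuous (path q) := by
  refine Continuous.subtype_mk (continuous_const.prodMk (continuous_pi fun m => ?_)) _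
  by_cases h : q.1 ∣ m
  · simp only [if_pos h]; exact continuous_const
  · simp only [if_neg h]
    exact Circle.exp.continuous.comp (by fun_prop)

theorem no_root (q : ℕ) (hq : q.Prime) (h : X → Circle) (hc : Continuous h)
    (hh : ∀ x, h x ^ q = x.1.2 1) : False := by
  set qq : Nat.Primes := ⟨q, hq⟩ with hqq
  have hq0 : (q : ℝ) ≠ 0 := by exact_mod_cast hq.pos.ne'
  have hz : ∀ t, (path qq t).1.2 1 = Circle.exp (2 * Real.pi * t) := by
    intro t
    have : ¬ q ∣ 1 := hq.one_lt.ne' ∘ Nat.dvd_one.1
    simp [path, toFib, hqq, this]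
  set k : ℝ → Circle := fun t => h (path qq t) * Circle.exp (-(2 * Real.pi * t / q)) with hk
  have hkc : Continuous k := (hc.comp (continuous_path qq)).mul
    (Circle.exp.continuous.comp (by fun_prop))
  have hk1 : ∀ t, k t ^ q = 1 := by
    intro t
    simp only [hk, mul_pow, hh, hz]
    rw [neg_div', exp_div_pow _ hq.pos, ← Circle.exp_add]
    simp
  have hconst : ∀ t, k t = k 0 := by
    intro t
    have hfin := finite_roots hq.pos
    exact (isPreconnected_univ (α := ℝ)).constant_of_mapsTo hfin.isDiscrete hkc.continuousOn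
      (fun t _ => hk1 t) (mem_univ _) (mem_univ _)
  set N : ℕ → ℕ := fun J => ∏ m ∈ (Finset.range J).filter (fun m => ¬ q ∣ m), m with hN
  have hNq : ∀ J, ¬ q ∣ N J := by
    intro J hd
    obtain ⟨m, hm, hd⟩ := (hq.prime.dvd_finsetProd_iff _).1 hd
    exact (Finset.mem_filter.1 hm).2 hd
  have hpath : Tendsto (fun J => path qq (N J)) atTop (𝓝 (path qq 0)) := by
    rw [tendsto_subtype_rng]
    change Tendsto (fun J => ((fun p => decide (p = q)),
        fun m : ℕ => if q ∣ m then 1 else Circle.exp (2 * Real.pi * (N J) / m))) atTop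
        (𝓝 ((fun p => decide (p = q)),
          fun m : ℕ => if q ∣ m then 1 else Circle.exp (2 * Real.pi * 0 / m)))
    refine Tendsto.prodMk_nhds tendsto_const_nhds (tendsto_pi_nhds.2 fun m => ?_)
    refine tendsto_const_nhds.congr' ?_
    filter_upwards [eventually_gt_atTop m] with J hJ
    by_cases hm : q ∣ m
    · simp [hm]
    · have hd : m ∣ N J := Finset.dvd_prod_of_mem _
        (Finset.mem_filter.2 ⟨Finset.mem_range.2 hJ, hm⟩)
      obtain ⟨c, hc⟩ := hd
      have hm0 : (m : ℝ) ≠ 0 := by
        intro h0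
        have : m = 0 := by exact_mod_cast h0
        exact hm (this ▸ dvd_zero q)
      simp only [if_neg hm]
      rw [hc]
      push_cast
      have : 2 * Real.pi * ((m : ℝ) * c) / m = c * (2 * Real.pi) := by field_simp
      rw [this]
      have := Circle.exp_int_mul_two_pi (c : ℤ)
      push_cast at this
      rw [this]
      simp
  have hlim : Tendsto (fun J => h (path qq (N J))) atTop (𝓝 (h (path qq 0))) :=
    (hc.tendsto _).comp hpath
  have hval : ∀ t, h (path qq t) = k 0 * Circle.exp (2 * Real.pi * t / q) := by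
    intro t
    rw [← hconst t]
    simp only [hk]
    rw [mul_assoc, ← Circle.exp_add]
    simp
  have hlim2 : Tendsto (fun J => Circle.exp (2 * Real.pi * (N J) / q)) atTop (𝓝 1) := by
    have h1 : Tendsto (fun J => (k 0)⁻¹ * h (path qq (N J))) atTop
        (𝓝 ((k 0)⁻¹ * h (path qq 0))) := tendsto_const_nhds.mul hlim
    have h2 : (k 0)⁻¹ * h (path qq 0) = 1 := by rw [hval]; simp
    rw [h2] at h1
    refine h1.congr fun J => ?_
    rw [hval]; simp
  have hclosed : IsClosed ({ζ : Circle | ζ ^ q = 1} \ {1}) :=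
    ((finite_roots hq.pos).subset sdiff_subset).isClosed
  have hmem : ∀ J, Circle.exp (2 * Real.pi * (N J) / q) ∈ ({ζ : Circle | ζ ^ q = 1} \ {1}) := by
    intro J
    constructor
    · change Circle.exp _ ^ q = 1
      rw [exp_div_pow _ hq.pos]
      exact_mod_cast Circle.exp_two_pi_mul_int (N J : ℤ)
    · intro h1
      have h1 : Circle.exp (2 * Real.pi * (N J) / q) = 1 := h1
      rw [Circle.exp_eq_one] at h1
      obtain ⟨n, hn⟩ := h1
      have : (N J : ℝ) = n * q := by
        have hpi := Real.pi_ne_zero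
        field_simp at hn
        linarith
      have h2 : (N J : ℤ) = n * q := by exact_mod_cast this
      exact hNq J (Int.natCast_dvd_natCast.1 ⟨n, by rw [h2, mul_comm]⟩)
  exact (hclosed.mem_of_tendsto hlim2 (Eventually.of_forall hmem)).2 rfl

/-! ### Off a nonempty open set the first coordinate has a root -/

theorem continuousAt_arg_circle {z : Circle} (hz : z ≠ -1) :
    ContinuousAt (fun z : Circle => Complex.arg (z : ℂ)) z := by
  have h1 : (z : ℂ) ∈ Complex.slitPlane := by
    rw [Complex.mem_slitPlane_iff_arg]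
    refine ⟨fun h => hz ?_, Circle.coe_ne_zero z⟩
    apply Circle.injective_arg
    simp [h]
  exact (Complex.continuousAt_arg h1).comp (continuous_subtype_val (p := fun z => z ∈ _)).continuousAt

theorem dense_fibres {U : Set X} (hU : IsOpen U) (hne : U.Nonempty) :
    ∃ q : ℕ, q.Prime ∧ ∃ x ∈ U, x.1.1 q = true := by
  obtain ⟨x, hx⟩ := hne
  by_cases h : ∃ q, x.1.1 q = true
  · obtain ⟨q, hq⟩ := h
    exact ⟨q, x.2.1 q hq, x, hx, hq⟩
  · push Not at h
    choose P hP hPp using fun n => Nat.exists_infinite_primes n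
    have hmem : ∀ n, toFib (P n) x.1.2 ∈ Xset := fun n => toFib_mem (hPp n)
      (fun a b ha hb _ => w_eq_pow x ha hb (fun p hp => absurd hp (h p)))
    have hlim : Tendsto (fun n => (⟨toFib (P n) x.1.2, hmem n⟩ : X)) atTop (𝓝 x) := by
      rw [tendsto_subtype_rng]
      change Tendsto (fun n => ((fun p => decide (p = P n)),
        fun m => if P n ∣ m then 1 else x.1.2 m)) atTop (𝓝 (x.1.1, x.1.2))
      refine Tendsto.prodMk_nhds (tendsto_pi_nhds.2 fun m => ?_) (tendsto_pi_nhds.2 fun m => ?_)
      · refine tendsto_const_nhds.congr' ?_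
        filter_upwards [eventually_gt_atTop m] with n hn
        have : m ≠ P n := by have := hP n; omega
        have h2 : x.1.1 m = false := by simpa using h m
        simp [h2, this]
      · refine tendsto_const_nhds.congr' ?_
        filter_upwards [eventually_gt_atTop m] with n hn
        rcases Nat.eq_zero_or_pos m with rfl | hm
        · simp [x.2.2.2.1]
        · have : ¬ P n ∣ m := fun hd => by
            have := Nat.le_of_dvd hm hd
            have := hP n
            omega
          simp [this]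
    obtain ⟨n, hn⟩ := (hlim.eventually (hU.mem_nhds hx)).exists
    exact ⟨P n, hPp n, _, hn, by simp [toFib]⟩

theorem separate {q : ℕ} {U : Set X} (hU : IsOpen U) {x : X} (hx : x ∈ U) (hxq : x.1.1 q = true) :
    ∃ N : ℕ, 0 < N ∧ ¬ q ∣ N ∧ ∀ y ∈ Uᶜ, y.1.1 q = true → y.1.2 N ≠ x.1.2 N := by
  by_contra hcon
  push Not at hcon
  have hq : q.Prime := x.2.1 q hxq
  let I := {N : ℕ // 0 < N ∧ ¬ q ∣ N}
  let t : I → Set X := fun N => Uᶜ ∩ ({y | y.1.1 q = true} ∩ {y | y.1.2 N.1 = x.1.2 N.1})
  have hclosed : ∀ N, IsClosed (t N) := fun N =>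
    hU.isClosed_compl.inter (((clopen_s q).isClosed.preimage continuous_subtype_val).inter
      (isClosed_eq ((cont_w N.1).comp continuous_subtype_val) continuous_const))
  have hne : ∀ N, (t N).Nonempty := fun N => by
    obtain ⟨y, hy1, hy2, hy3⟩ := hcon N.1 N.2.1 N.2.2
    exact ⟨y, hy1, hy2, hy3⟩
  have honly : ∀ y : X, y.1.1 q = true → ∀ p, y.1.1 p = true → p = q :=
    fun y hy p hp => y.2.2.1 p q hp hy
  have hpow : ∀ (y : X), y.1.1 q = true → ∀ N M : ℕ, 0 < N → 0 < M → ¬ q ∣ N * M →
      y.1.2 (N * M) ^ N = y.1.2 M := by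
    intro y hy N M hN hM hd
    refine w_eq_pow y hN hM fun p hp => ?_
    rw [honly y hy p hp]; exact hd
  have hdir : Directed (· ⊇ ·) t := by
    intro N M
    have hNM : ¬ q ∣ N.1 * M.1 := fun h => (hq.dvd_mul.1 h).elim N.2.2 M.2.2
    refine ⟨⟨N.1 * M.1, Nat.mul_pos N.2.1 M.2.1, hNM⟩, ?_, ?_⟩
    · rintro y ⟨hy1, hy2, hy3⟩
      refine ⟨hy1, hy2, ?_⟩
      have hNM' : ¬ q ∣ M.1 * N.1 := by rwa [mul_comm]
      have e1 := hpow y hy2 M.1 N.1 M.2.1 N.2.1 hNM'
      have e2 := hpow x hxq M.1 N.1 M.2.1 N.2.1 hNM'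
      have hy3' : y.1.2 (N.1 * M.1) = x.1.2 (N.1 * M.1) := hy3
      change y.1.2 N.1 = x.1.2 N.1
      rw [← e1, ← e2, mul_comm M.1, hy3']
    · rintro y ⟨hy1, hy2, hy3⟩
      refine ⟨hy1, hy2, ?_⟩
      have e1 := hpow y hy2 N.1 M.1 N.2.1 M.2.1 hNM
      have e2 := hpow x hxq N.1 M.1 N.2.1 M.2.1 hNM
      have hy3' : y.1.2 (N.1 * M.1) = x.1.2 (N.1 * M.1) := hy3
      change y.1.2 M.1 = x.1.2 M.1
      rw [← e1, ← e2, hy3']
  have : Nonempty I := ⟨⟨1, one_pos, hq.one_lt.ne' ∘ Nat.dvd_one.1⟩⟩
  obtain ⟨y, hy⟩ := IsCompact.nonempty_iInter_of_directed_nonempty_isCompact_isClosed t hdir hne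
    (fun N => (hclosed N).isCompact) hclosed
  rw [mem_iInter] at hy
  have hy1 : y ∈ Uᶜ := (hy ⟨1, one_pos, hq.one_lt.ne' ∘ Nat.dvd_one.1⟩).1
  have hy2 : y.1.1 q = true := (hy ⟨1, one_pos, hq.one_lt.ne' ∘ Nat.dvd_one.1⟩).2.1
  refine hy1 ?_
  have : y = x := by
    apply Subtype.ext
    apply Prod.ext
    · funext p
      by_cases hp : p = q
      · rw [hp, hy2, hxq]
      · have h1 : y.1.1 p = false := by
          by_contra h; exact hp (honly y hy2 p (by simpa using h))
        have h2 : x.1.1 p = false := by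
          by_contra h; exact hp (honly x hxq p (by simpa using h))
        rw [h1, h2]
    · funext m
      by_cases hm : q ∣ m
      · rw [y.2.2.2.2.2 q m hy2 hm, x.2.2.2.2.2 q m hxq hm]
      · have hm0 : 0 < m := Nat.pos_of_ne_zero fun h => hm (h ▸ dvd_zero q)
        exact (hy ⟨m, hm0, hm⟩).2.2
  rw [this]; exact hx

theorem root_off {U : Set X} (hU : IsOpen U) (hne : U.Nonempty) :
    ∃ q : ℕ, q.Prime ∧ ∃ h : X → Circle, ContinuousOn h Uᶜ ∧ ∀ x ∈ Uᶜ, h x ^ q = x.1.2 1 := by
  obtain ⟨q, hq, x, hx, hxq⟩ := dense_fibres hU hne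
  obtain ⟨N, hN0, hNq, hN⟩ := separate hU hx hxq
  set u₀ : Circle := x.1.2 N with hu₀
  -- a `q`-th root of `(-u₀)^N`
  set c : Circle := Circle.exp (Complex.arg (((-u₀) ^ N : Circle) : ℂ) / q) with hc
  have hcq : c ^ q = (-u₀) ^ N := by
    rw [hc, exp_div_pow _ hq.pos, Circle.exp_arg]
  let θ : X → ℝ := fun y => Complex.arg ((-(y.1.2 N) * u₀⁻¹ : Circle) : ℂ)
  let h1 : X → Circle := fun y => c * Circle.exp (N * θ y / q)
  let h2 : X → Circle := fun y => y.1.2 q
  refine ⟨q, hq, fun y => if y.1.1 q = true then h1 y else h2 y, ?_, ?_⟩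
  · intro y hy
    have hcl : IsClopen {y : X | y.1.1 q = true} := (clopen_s q).preimage continuous_subtype_val
    by_cases hyq : y.1.1 q = true
    · have hcont : ContinuousAt h1 y := by
        have hne : (-(y.1.2 N) * u₀⁻¹ : Circle) ≠ -1 := by
          intro h
          apply hN y hy hyq
          have : y.1.2 N * u₀⁻¹ = 1 := by
            have := congrArg (fun z : Circle => -z) h
            simpa using this
          rw [mul_inv_eq_one] at this
          exact this
        have hθ : ContinuousAt θ y := by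
          have hi : Continuous fun y : X => (-(y.1.2 N) * u₀⁻¹ : Circle) :=
            ((cont_w N).comp continuous_subtype_val).neg.mul continuous_const
          exact ContinuousAt.comp (g := fun z : Circle => Complex.arg (z : ℂ))
            (continuousAt_arg_circle hne) hi.continuousAt
        exact continuousAt_const.mul (Circle.exp.continuous.continuousAt.comp
          ((continuousAt_const.mul hθ).div_const _))
      refine (hcont.congr ?_).continuousWithinAt
      filter_upwards [hcl.isOpen.mem_nhds hyq] with z hz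
      rw [if_pos hz]
    · have hcont : ContinuousAt h2 y := ((cont_w q).comp continuous_subtype_val).continuousAt
      refine (hcont.congr ?_).continuousWithinAt
      filter_upwards [hcl.compl.isOpen.mem_nhds hyq] with z hz
      have hz' : ¬ z.1.1 q = true := hz
      rw [if_neg hz']
  · intro y hy
    by_cases hyq : y.1.1 q = true
    · simp only [if_pos hyq]
      change (c * Circle.exp (N * θ y / q)) ^ q = y.1.2 1
      rw [mul_pow, hcq, exp_div_pow _ hq.pos]
      have e1 : Circle.exp (N * θ y) = (-(y.1.2 N) * u₀⁻¹) ^ N := by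
        rw [← nsmul_eq_mul, Circle.exp_nsmul, Circle.exp_arg]
      rw [e1, ← mul_pow]
      have e2 : -u₀ * (-(y.1.2 N) * u₀⁻¹) = y.1.2 N := by
        rw [neg_mul, neg_mul, mul_neg, neg_neg, mul_comm, mul_assoc, inv_mul_cancel, mul_one]
      rw [e2]
      have := w_eq_pow y hN0 one_pos (fun p hp => by
        rw [y.2.2.1 p q hp hyq, mul_one]; exact hNq)
      rwa [mul_one] at this
    · simp only [if_neg hyq]
      have := w_eq_pow y hq.pos one_pos (fun p hp hd => by
        rw [mul_one] at hd
        have : p = q := (Nat.prime_dvd_prime_iff_eq (y.2.1 p hp) hq).1 hd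
        exact hyq (this ▸ hp))
      rwa [mul_one] at this

end Pool.Agent.H.MP_f8852a_lc
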